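import Pool.Agent.SYS.LR.Out
import Pool.Agent.SYS.LA.Badv

/-!
# SYS-LR-Brg: the hypothesis `LRNul` of `badv`
-/

namespace SYS

open Classical SST

theorem lrNul : LRNul := by
  rintro n g r T t hT - hr ⟨w, hw, t1, t2, h0, h1, h2, h01, h12, h20, S', x', hR, hL, -⟩ c hc hl
  obtain ⟨-, -, h3, h4⟩ := Num.mem_WdL.1 hw
  exact LR.nul hT hr h0 h1 h2 h01 h12 h20 hR hL h3 h4 hc hl

end SYS
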