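import Pool.Agent.SYS.LR.Main
import Pool.Agent.SYS.LO.Defs

/-!
# SYS-LR-Out: layer islands, final statements for LA, LO

PLAN.
* `island`: `isl_or_bad` (`unfold tri0` or `rfl`: `tri0 T t` is the region of the statement), `Bad` with `2 * r + 1 ≤ 2 * r + 4`, `Ild.hc`, `Ild.pre`, ...
* `nul`: `tri0_of` for the first region (`Part.rch_sub`, `Part.sub_le` give that it is below `T`), `isl_of`, `Ild.nul`.
* `cell_li`: `cases` on `h`: `Isl [w] S [x]` comes from `cons` with `Isl [] S₀ []`, so `S₀ = Part.emp`; the new triangle is `tri0 T t0` (`tri0_of`); `li_rch` with `li_start`, `tri0_per`.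
* `cell_facts`: from `cell_li`: `Part.Expl.con`, `LI.one`, `mem_hw`, `LI.p`, `GR.lrun_p` (`WOk 3 w` and `wend`: `Part.rch_typ` with the type of the new triangle; for a general finite `D` the type of a new triangle over `emp` is not available, so prove
  `S.per x = wend 3 w` from `LI.p` and `(GR.lrun (GR.start 3) w).p = wend 3 w`, `GR.lrun_p`, which needs `WOk 3 w`: induction along the run with `li_st` (first component), see `cell_ok`).
* `cell_ok`: induction on `w` with a general `S`, `x`, `l`, `h` as in `li_rch`: `LI T t S x l → S.per x = wend p h → Rch (lrule p) h S x w S' x' → S'.Le T → WOk l.p w`: `li_st` gives `s.Ok l.p` and `(l.step s).p = s.nx l.p` (`GR.step_p`).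
-/

namespace SYS.LR

open Classical SST

section
variable {D : Type} [Finite D]

theorem cell_ok {T : Tri D} (hT : T.Conn) {t : D} {S' : Part D} {x' : D} {p : ℕ} (w : List Stp) :
    ∀ {S : Part D} {x : D} {l : GR.LS} {h : List Stp}, LI T t S x l → S.per x = wend p h →
    Part.Rch (lrule p) h S x w S' x' → S'.Le T → WOk l.p w := by
  induction w with
  | nil =>
    rintro S x l h hI hp - -
    exact trivial
  | cons s w ih =>
    rintro S x l h hI hp ⟨S₁, z, hs, hr⟩ hL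
    have hL1 : S₁.Le T := Part.sub_le (Part.rch_sub hr) hL
    obtain ⟨hok, hI1⟩ := li_st hT hI hs hL1
    have hz : z ∈ S₁.B := (Part.st_sub hs).2.2
    have hsame : S₁.s.SameCycle z (gat S₁ s z) := by
      cases s with
      | T => exact (Part.nx_pow_same S₁ hz 1).2
      | L k a => exact (Part.nx_pow_same S₁ hz _).2
      | R k a => exact (Part.nx_pow_same S₁ hz _).2
    have hper2 : S₁.per (gat S₁ s z) = wend p (h ++ [s]) := by
      rw [hI1.p, GR.step_p l s hok, wend_append, ← hp, hI.p]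
      rfl
    have hper : S₁.per z = wend p (h ++ [s]) := by
      rw [Part.per_same S₁ hsame, hper2]
    rw [gat_eq hper] at hr
    refine (WOk_cons _ _ _).2 ⟨hok, ?_⟩
    rw [← GR.step_p l s hok]
    exact ih hI1 hper2 hr hL

end

theorem island {n g : ℕ} {T : Tri (Fin (6 * n))} (hT : T ∈ Trn n g) (hg : 1 ≤ g) (t : Fin (6 * n)) {r : ℕ} (hr : 1 ≤ r) :
    (∃ (w : List Stp) (S' : Part (Fin (6 * n))) (x' : Fin (6 * n)),
      Part.Rch (lrule 3) [] ((Part.emp : Part (Fin (6 * n))).newTri t (T.f t) (T.f (T.f t)) (by simp [Part.R, Part.emp])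
        (by simp [Part.R, Part.emp]) (by simp [Part.R, Part.emp]) (Part.tri_ne T t).1 (Part.tri_ne T t).2.1
        (Part.tri_ne T t).2.2) t w S' x' ∧ S'.Le T ∧ S'.HConn T ∧ GR.lay 3 w = r ∧ WOk 3 w ∧
      (∀ u, u <+: w → u ≠ w → GR.lay 3 u < r) ∧ (∀ b ∈ S'.B, Dle T (r + 1) (T.tl t) (T.tl b)) ∧
      (∀ d, Dle T (r - 1) (T.tl t) (T.tl d) → d ∈ S'.R ∧ d ∉ S'.B)) ∨
    ∃ c, T.IsWalk (T.tl t) c (T.tl t) ∧ c.length ≤ 2 * r + 1 ∧ ¬ T.NullHtp c := by
  rcases isl_or_bad hg hT t hr with ⟨w, S', x', h⟩ | ⟨c, h1, h2, h3⟩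
  · left
    refine ⟨w, S', x', h.rch, h.le, h.hc, h.lay, ?_, h.pre, h.bd, fun d hd => ⟨(h.cov d hd).1, (h.cov d hd).2.1⟩⟩
    exact cell_ok (h := []) hT.1 w (li_start T t) (tri0_per T t).2.1 h.rch h.le
  · exact Or.inr ⟨c, h1, h2, h3⟩

theorem nul {n g : ℕ} {T : Tri (Fin (6 * n))} (hT : T ∈ Trn n g) {r : ℕ} (hr : 1 ≤ r) {t t1 t2 : Fin (6 * n)}
    (h0 : t ∉ (Part.emp : Part (Fin (6 * n))).R) (h1 : t1 ∉ (Part.emp : Part (Fin (6 * n))).R)
    (h2 : t2 ∉ (Part.emp : Part (Fin (6 * n))).R) (h01 : t ≠ t1) (h12 : t1 ≠ t2) (h20 : t2 ≠ t) {w : List Stp}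
    {S' : Part (Fin (6 * n))} {x' : Fin (6 * n)}
    (hR : Part.Rch (lrule 3) [] ((Part.emp : Part (Fin (6 * n))).newTri t t1 t2 h0 h1 h2 h01 h12 h20) t w S' x') (hL : S'.Le T)
    (hw : GR.lay 3 w = r) (hp : ∀ u, u <+: w → u ≠ w → GR.lay 3 u < r) {c : List (Fin (6 * n))}
    (hc : T.IsWalk (T.tl t) c (T.tl t)) (hl : c.length ≤ 2 * (r - 1)) : T.NullHtp c := by
  have h3 : ((Part.emp : Part (Fin (6 * n))).newTri t t1 t2 h0 h1 h2 h01 h12 h20).Le T := Part.sub_le (Part.rch_sub hR) hL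
  rw [tri0_of h0 h1 h2 h01 h12 h20 h3] at hR
  exact (isl_of hT hr hR hL hw hp).nul c hc hl

section
variable {D : Type} [Finite D]

theorem cell_li {T : Tri D} (hT : T.Conn) {w : List Stp} {S : Part D} {x : D} (h : LO.Isl [w] S [x]) (hL : S.Le T) :
    WOk 3 w ∧ ∃ t, LI T t S x (GR.lrun (GR.start 3) w) := by
  cases h with
  | cons h h0 h1 h2 h01 h12 h20 hr =>
    cases h with
    | nil =>
      have h3 := Part.sub_le (Part.rch_sub hr) hL
      rw [tri0_of h0 h1 h2 h01 h12 h20 h3] at hr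
      refine ⟨cell_ok (h := []) hT w (li_start T _) (tri0_per T _).2.1 hr hL, _, li_rch (h := []) hT w (li_start T _) (tri0_per T _).2.1 hr hL⟩

theorem cell_facts {T : Tri D} (hT : T.Conn) {w : List Stp} {S : Part D} {x : D} (h : LO.Isl [w] S [x]) (hL : S.Le T) :
    S.Con ∧ x ∈ S.B ∧ (∀ b ∈ S.B, S.s.SameCycle x b) ∧ WOk 3 w ∧ S.per x = wend 3 w ∧ Part.Expl T S 0 ∧ S.HConn T := by
  obtain ⟨hok, t, hI⟩ := cell_li hT h hL
  refine ⟨hI.ex.con, hI.hx, fun b hb => ((S.mem_hw hI.hx).1 (hI.one b hb)).2, hok, ?_, hI.ex, li_hconn hT hI⟩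
  rw [hI.p]
  exact GR.lrun_p (GR.start 3) w hok

end

end SYS.LR
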