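import Pool.Agent.SYS.LR.Defs

/-!
# SYS-LR-Cpl: completed vertices, elementary facts

PLAN.
* `pow_run`: induction on `m`: `(T.s ^ m) d = (S.s ^ m) d ∈ R \ B` if `(S.s ^ i) d ∉ B` for all `i` (`le_s`, `mem_R_s`, `pow_succ'`).
* `cpl_of`: `T.tl e = T.tl d` means `T.s.SameCycle d e` (`Tri.tl_eq_iff`), so `e = (T.s ^ m) d` for a natural number `m` (finite: `Equiv.Perm.SameCycle.exists_pow_eq'` or
  `.exists_nat_pow_eq`, look it up); `pow_run`.
* `cpl_same`: symmetric: `(S.s ^ m) d = (T.s ^ m) d` for all `m` by induction, since all `(T.s ^ m) d` are in `R \ B` (`Tri.tl_s`); `S.s.SameCycle d e` gives `e = (S.s ^ m) d`.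
* `cpl_sub`: `R` grows (`Sub.R_sub`); `d ∈ R \ B` means `S.a d ≠ d`, so `S'.a d = S.a d ≠ d`, `d ∉ S'.B`.
* `cpl_or`: if `S.Cpl T (T.tl d)` fails there is `m` with `(T.s ^ m) d ∉ R \ B`; take the least one; `(T.s ^ m) d ∈ R` (`m = 0`: `hd`; otherwise `T.s` of a dart of `R \ B` is
  `S.s` of it, in `R`: `le_s`, `mem_R_s`), so it is in `B`; `Tri.tl_s`.
* `tl_nx`: `Part.vt_nx` and `Part.car_single`, `Part.car_vt`, `Part.car_walk` (see the end of `UT/EndN.lean`: `htl`).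
* `vt_cpl`: `e = (T.s ^ m) d`; each step `d ↦ T.s d = S.s d` is a step of `Part.Vt`.
-/

namespace SYS

open Classical SST

variable {D : Type} [Finite D]

private theorem cp_run {S : Part D} {T : Tri D} (h : S.Le T) {d : D} (hd : d ∈ S.R) {m : ℕ}
    (hB : ∀ i < m, (S.s ^ i) d ∉ S.B) : (T.s ^ m) d = (S.s ^ m) d ∧ (S.s ^ m) d ∈ S.R := by
  induction m with
  | zero => exact ⟨rfl, hd⟩
  | succ m ih =>
    obtain ⟨h1, h2⟩ := ih fun i hi => hB i (by omega)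
    rw [pow_succ', pow_succ', Equiv.Perm.mul_apply, Equiv.Perm.mul_apply, h1]
    exact ⟨Part.le_s h h2 (hB m (by omega)), (S.mem_R_s _).2 h2⟩

omit [Finite D] in
private theorem cp_tl (T : Tri D) (d : D) (m : ℕ) : T.tl ((T.s ^ m) d) = T.tl d := by
  induction m with
  | zero => rfl
  | succ m ih => rw [pow_succ', Equiv.Perm.mul_apply, Tri.tl_s, ih]

theorem cpl_of {S : Part D} {T : Tri D} (h : S.Le T) {d : D} (hd : d ∈ S.R) (hB : ∀ e, S.s.SameCycle d e → e ∉ S.B) :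
    S.Cpl T (T.tl d) := by
  intro e he
  have h1 : T.s.SameCycle d e := (Tri.tl_eq_iff T d e).1 he.symm
  obtain ⟨m, -, hm⟩ := h1.exists_pow_eq'
  have hB' : ∀ i, (S.s ^ i) d ∉ S.B := fun i => hB _ ⟨i, by rw [zpow_natCast]⟩
  obtain ⟨h2, h3⟩ := cp_run h hd (m := m) fun i _ => hB' i
  rw [← hm, h2]
  exact ⟨h3, hB' m⟩

theorem cpl_same {S : Part D} {T : Tri D} (h : S.Le T) {d : D} (hd : S.Cpl T (T.tl d)) {e : D} (he : S.s.SameCycle d e) :
    T.tl e = T.tl d ∧ e ∈ S.R ∧ e ∉ S.B := by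
  obtain ⟨m, -, hm⟩ := he.exists_pow_eq'
  have key : ∀ m : ℕ, (S.s ^ m) d = (T.s ^ m) d := by
    intro m
    induction m with
    | zero => rfl
    | succ m ih =>
      rw [pow_succ', pow_succ', Equiv.Perm.mul_apply, Equiv.Perm.mul_apply, ih]
      obtain ⟨h1, h2⟩ := hd ((T.s ^ m) d) (cp_tl T d m)
      exact (Part.le_s h h1 h2).symm
  have h3 : T.tl e = T.tl d := by rw [← hm, key m, cp_tl]
  exact ⟨h3, hd e h3⟩

omit [Finite D] in
theorem cpl_sub {S S' : Part D} {T : Tri D} (h : S.Sub S') {v : T.V} (hv : S.Cpl T v) : S'.Cpl T v := by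
  intro d hd
  obtain ⟨h1, h2⟩ := hv d hd
  refine ⟨h.R_sub h1, fun h3 => ?_⟩
  have h4 : S.a d ≠ d := fun h4 => h2 ⟨h1, h4⟩
  have h5 := h.2 d h4
  rw [h3.2] at h5
  exact h4 h5.symm

theorem cpl_or {S : Part D} {T : Tri D} (h : S.Le T) {d : D} (hd : d ∈ S.R) :
    S.Cpl T (T.tl d) ∨ ∃ b ∈ S.B, T.tl b = T.tl d := by
  by_cases hB : ∀ e, S.s.SameCycle d e → e ∉ S.B
  · exact Or.inl (cpl_of h hd hB)
  · right
    push Not at hB
    obtain ⟨e, he, heB⟩ := hB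
    obtain ⟨m, -, hm⟩ := he.exists_pow_eq'
    have hex : ∃ m : ℕ, (S.s ^ m) d ∈ S.B := ⟨m, by rw [hm]; exact heB⟩
    obtain ⟨h1, -⟩ := cp_run h hd (m := Nat.find hex) fun i hi => Nat.find_min hex hi
    refine ⟨_, Nat.find_spec hex, ?_⟩
    rw [← h1, cp_tl]

theorem tl_nx {S : Part D} {T : Tri D} (h : S.Le T) {x : D} (hx : x ∈ S.B) : T.tl (S.nx x) = T.hd x := by
  have h3 := Part.car_vt (Relation.EqvGen.refl x) (Part.car_single T (S.B_sub_R hx)) (Part.vt_nx hx)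
  have h4 := Part.car_walk h (S.B_sub_R hx) h3
  exact h4.2.symm

theorem vt_cpl {S : Part D} {T : Tri D} (h : S.Le T) {d e : D} (hd : S.Cpl T (T.tl d)) (he : T.tl e = T.tl d) : S.Vt d e := by
  have h1 : T.s.SameCycle d e := (Tri.tl_eq_iff T d e).1 he.symm
  obtain ⟨m, -, hm⟩ := h1.exists_pow_eq'
  have key : ∀ m : ℕ, S.Vt d ((T.s ^ m) d) := by
    intro m
    induction m with
    | zero => exact Relation.EqvGen.refl _
    | succ m ih =>
      obtain ⟨h2, h3⟩ := hd ((T.s ^ m) d) (cp_tl T d m)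
      refine Relation.EqvGen.trans _ _ _ ih (Relation.EqvGen.rel _ _ ⟨h2, h3, ?_⟩)
      rw [pow_succ', Equiv.Perm.mul_apply, Part.le_s h h2 h3]
  rw [← hm]
  exact key m

end SYS
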