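import Pool.Agent.SYS.LR.Cpl

/-!
# SYS-LR-Bd: a word of the hole with non-trivial holonomy gives a short closed walk which is not contractible

PLAN.
* `car_word`: `S.hw x = x :: (u ++ y :: v)`, `u ≠ []`: the walk `u` is carried from the corner of `S.nx x` (first element of `u`) to the corner of `y`: for consecutive darts `d, e = nx d`: `Part.car_single`, `Part.vt_nx`, `Part.car_vt`, `Part.car_append`; the chain is
  `Part.hw_chain` (induction on a list with `List.IsChain (fun d e => S.nx d = e)`).
* `bad_of`: `S.nx x` is element `0` and `y` is some element of `S.hw (S.nx x)` (`hw_nx`): `pos` gives `π` from `t` to `S.nx x`, `|π| ≤ l.r + 1` (`0 < l.al`), and `π'` from `t` to `y`, `|π'| ≤ l.r + 2`.  `π ++ u ++ rev π'` is carried from `t` to `t` (`car_append`, `car_rev`), so it is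
  contractible (`Part.Expl.nullHtp`), and its holonomy is trivial (`Flat.nullHtp`): `hol l π * hol l u * (hol l π')⁻¹ = 1` (`hol_append`, `Flat.hol_rev`).  `c := π' ++ rev π`: closed at `T.tl t` because `T.tl y = T.hd x = T.tl (S.nx x)` (`tl_nx`; `Part.car_walk`, `Tri.walk_rev`, `Tri.walk_append`); if it
  were contractible then `hol l π' = hol l π`, so `hol l u = 1`.
-/

namespace SYS

open Classical SST

variable {D : Type} [Finite D]

private theorem bd_chain {S : Part D} (T : Tri D) (u : List D) : ∀ (d y : D) (v : List D), (∀ e ∈ d :: u, e ∈ S.B) →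
    List.IsChain (fun d e => S.nx d = e) (d :: (u ++ y :: v)) → S.Car T d (d :: u) y := by
  induction u with
  | nil =>
    intro d y v hB hc
    have hd : d ∈ S.B := hB d (by simp)
    have h1 : S.nx d = y := (List.isChain_cons_cons.1 hc).1
    rw [← h1]
    exact Part.car_vt (Relation.EqvGen.refl d) (Part.car_single T hd.1) (Part.vt_nx hd)
  | cons e u ih =>
    intro d y v hB hc
    have hd : d ∈ S.B := hB d (by simp)
    have h1 := List.isChain_cons_cons.1 hc
    have h2 : S.nx d = e := h1.1
    have h3 : S.Car T d [d] e := by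
      rw [← h2]
      exact Part.car_vt (Relation.EqvGen.refl d) (Part.car_single T hd.1) (Part.vt_nx hd)
    exact Part.car_append h3 (ih e y v (fun b hb => hB b (List.mem_cons_of_mem _ hb)) h1.2)

theorem car_word {S : Part D} (T : Tri D) {x y : D} (hx : x ∈ S.B) {u v : List D} (hw : S.hw x = x :: (u ++ y :: v))
    (hu : u ≠ []) : S.Car T (S.nx x) u y := by
  obtain ⟨z₁, w₁, rfl⟩ := List.exists_cons_of_ne_nil hu
  have h1 : S.nx x = z₁ := nx_append hx (u := []) hw
  have h2 := S.hw_chain hx
  rw [hw] at h2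
  rw [h1]
  refine bd_chain T w₁ z₁ y v (fun e he => ?_) (List.isChain_cons_cons.1 h2).2
  have h3 : e ∈ S.hw x := by
    rw [hw]
    exact List.mem_cons_of_mem _ (List.mem_append_left _ he)
  exact ((Part.mem_hw S hx).1 h3).1

theorem bad_of {T : Tri D} (hT : T.Conn) {S : Part D} {t x y : D} {l : GR.LS} (h : LI T t S x l) {u v : List D}
    (hw : S.hw x = x :: (u ++ y :: v)) (hu : u ≠ []) (ha : T.a x = y) {G : Type} [Group G] {lb : D → G} (hl : Flat T lb)
    (hne : hol lb u ≠ 1) : Bad T t (2 * l.r + 3) := by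
  have hx := h.hx
  have h1 := hw_nx hx hw
  obtain ⟨z₁, w₁, rfl⟩ := List.exists_cons_of_ne_nil hu
  have h2 : S.nx x = z₁ := nx_append hx (u := []) hw
  obtain ⟨π, hπ, hπl⟩ := h.pos 0 z₁ (by rw [h1]; rfl)
  obtain ⟨π', hπ', hπl'⟩ := h.pos (z₁ :: w₁).length y (by
    rw [h1, List.append_assoc, List.getElem?_append_right le_rfl, Nat.sub_self]
    rfl)
  have hal := h.al
  rw [if_pos (by omega)] at hπl
  have hπl2 : π'.length ≤ l.r + 2 := by
    refine hπl'.trans ?_
    split_ifs <;> omega
  have h3 := car_word T hx hw hu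
  rw [h2] at h3
  have h4 : S.Car T t (π ++ (z₁ :: w₁) ++ (π'.map T.a).reverse) t := Part.car_append (Part.car_append hπ h3) (Part.car_rev hπ')
  have h5 := hl.nullHtp (h.ex.nullHtp hT h.tR h4)
  rw [hol_append, hol_append, hl.hol_rev] at h5
  have htl : T.tl y = T.tl z₁ := by
    rw [← h2, tl_nx h.le hx, ← ha]
    rfl
  refine ⟨π' ++ (π.map T.a).reverse, ?_, ?_, fun h6 => hne ?_⟩
  · have w1 := Part.car_walk h.le h.tR hπ'
    rw [htl] at w1
    exact T.walk_append w1 (T.walk_rev (Part.car_walk h.le h.tR hπ))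
  · rw [List.length_append, List.length_reverse, List.length_map]
    omega
  · have h7 := hl.nullHtp h6
    rw [hol_append, hl.hol_rev] at h7
    have h8 : hol lb π' = hol lb π := mul_inv_eq_one.1 h7
    rw [h8] at h5
    have h9 : hol lb (z₁ :: w₁) = (hol lb π)⁻¹ * (hol lb π * hol lb (z₁ :: w₁) * (hol lb π)⁻¹) * hol lb π := by group
    rw [h9, h5, mul_one, inv_mul_cancel]

end SYS
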