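import Pool.Agent.SYS.LR.Bd

/-!
# SYS-LR-BdN: a step which does not separate the hidden part

PLAN.  `NSt`: `S.hw x = x :: (u ++ T.a x :: v)`, `u = z₁ :: w₁`, `v = z :: w`, `G := S.glue x (T.a x)` has connected hidden part.  `G.hw z₁ = u`, `G.hw z = v` (`hw_glue_split_left`, `hw_glue_split_right`), `G.Con` (`Part.con_glue`, `Part.Expl.con`), `G.Le T` (`Part.glue_le`), `z₁, z ∈ G.B` (`mem_glue_B`).
`flow_holes` for `G`: a cocycle `w` with `per w (G.hw z₁) = 1` (`z₁ ∉ v` because `S.hw x` has no repetitions).  The labelling `Multiplicative.ofAdd (w d)` is flat and its holonomy along `u` is `ofAdd (per w u) = ofAdd 1 ≠ 1` (copy `en_flat`, `en_hol` from `UT/EndN.lean`).  `bad_of`.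
-/

namespace SYS

open Classical SST GNH

variable {D : Type} [Fintype D]

private noncomputable def bnL (X : D → ℝ) (d : D) : Multiplicative ℝ := Multiplicative.ofAdd (X d)

omit [Fintype D] in
private theorem bn_flat {T : Tri D} {X : D → ℝ} (h : T.IsCoc X) : Flat T (bnL X) := by
  refine ⟨fun d => ?_, fun d => ?_⟩
  · show Multiplicative.ofAdd (X (T.a d)) = (Multiplicative.ofAdd (X d))⁻¹
    rw [h.1 d, ofAdd_neg]
  · show Multiplicative.ofAdd (X d) * Multiplicative.ofAdd (X (T.f d)) *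
      Multiplicative.ofAdd (X (T.f (T.f d))) = 1
    rw [← ofAdd_add, ← ofAdd_add, h.2 d, ofAdd_zero]

omit [Fintype D] in
private theorem bn_hol (X : D → ℝ) (c : List D) : hol (bnL X) c = Multiplicative.ofAdd (per X c) := by
  induction c with
  | nil => rfl
  | cons d c ih =>
    rw [hol_cons, ih]
    show Multiplicative.ofAdd (X d) * Multiplicative.ofAdd (per X c) = _
    rw [← ofAdd_add]
    congr 1

theorem bad_ns {T : Tri D} (hT : T.Conn) {S : Part D} {t x : D} {l : GR.LS} (h : LI T t S x l) {u v : List D}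
    (hn : S.NSt T x u v) : Bad T t (2 * l.r + 3) := by
  obtain ⟨hu, hv, hw, hx, hy, hc⟩ := hn
  obtain ⟨z₁, w₁, rfl⟩ := List.exists_cons_of_ne_nil hu
  obtain ⟨z, w, rfl⟩ := List.exists_cons_of_ne_nil hv
  have hle : (S.glue x (T.a x) hx hy).Le T := Part.glue_le S hx hy h.le rfl
  have hcon : (S.glue x (T.a x) hx hy).Con := Part.con_glue S hx hy h.ex.con
  have e1 : (S.glue x (T.a x) hx hy).hw z₁ = z₁ :: w₁ := Part.hw_glue_split_left S hx hy hw rfl
  have e2 : (S.glue x (T.a x) hx hy).hw z = z :: w := Part.hw_glue_split_right S hx hy hw rfl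
  have hz1 : z₁ ∈ (S.glue x (T.a x) hx hy).B := mem_glue_B hx hy hw (Or.inl List.mem_cons_self)
  have hz : z ∈ (S.glue x (T.a x) hx hy).B := mem_glue_B hx hy hw (Or.inr List.mem_cons_self)
  have h1 : (S.glue x (T.a x) hx hy).Hc T z₁ z := hc z₁ (Or.inr hz1) z (Or.inr hz)
  obtain ⟨X, hX, -, hXp⟩ := flow_holes hle hcon hz1 hz h1
  have hnd := S.hw_nodup hx
  rw [hw] at hnd
  have hn2 := List.nodup_append.mp (List.nodup_cons.mp hnd).2
  have m1 : z₁ ∉ z :: w := fun h3 => hn2.2.2 z₁ (by simp) z₁ (List.mem_cons_of_mem _ h3) rfl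
  have m2 : z₁ ∈ z₁ :: w₁ := List.mem_cons_self
  have a1 : per X (z₁ :: w₁) = 1 := by
    have h3 := hXp z₁ hz1
    rw [e1, e2, if_pos m2, if_neg m1] at h3
    rw [h3, sub_zero]
  refine bad_of hT h hw hu rfl (bn_flat hX) ?_
  rw [bn_hol, a1]
  intro h3
  have h4 : (1 : ℝ) = 0 := Multiplicative.ofAdd.injective h3
  exact one_ne_zero h4

end SYS
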