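import Pool.Agent.SYS.LR.Bd
import Pool.Agent.SYS.UT.HCard

/-!
# SYS-LR-BdS: a step which separates the hidden part, no side is a disc

PLAN.  Compare `end_sep_r` (`UT/EndS.lean`) and `topu_split` (`UT/Main.lean`).  `Sep`: `S.hw x = x :: (u ++ T.a x :: v)`, `u = z₁ :: w₁`, `v = z :: w`, `G := S.glue x (T.a x)`; `G.hw z₁ = u`, `G.hw z = v`; `G.B` = the darts of `u` and `v` (`glue_B`, `h.one`).
* `¬ G.Hc T z₁ z`: otherwise all boundary darts are in one hidden component (`Part.hc_hole`), and every hidden dart is related to a boundary dart (`Part.hc_meets`), so `G.HConn T`, contradiction.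
* hence the hidden component of `z₁` has only the hole of `z₁` and that of `z` only the hole of `z` (`hu`, `hu'`).  `gen12 (G.fill T hle z₁) ≠ G.gen12` and `gen12 (G.fill T hle z) ≠ G.gen12`: otherwise `IsDisc` by `Part.hc_three` (see the last lines of `topu_split`).
* `handle_coc` for `z₁` (`w1 w2 q1 q2`) and for `z` (`y1 y2 ..`).  `sep_hol` with `z := z₁`, `z' := z`: the supports: if `y1 d ≠ 0` then `d ∈ G.X → d ∈ G.HC T z`; and `d ∉ G.X` means `d ∈ R \ B`.  `w1, w2` vanish on `G.HC T z`: its darts are in `G.X` and not in `G.HC T z₁` (`¬ G.Hc T z₁ z`; as in `sep_two`,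
  `UT/SepY.lean`).
* `sep_hol` gives a flat labelling with `hol l (G.hw z₁) = hol l u ≠ 1`; `bad_of`.
-/

namespace SYS

open Classical SST GNH

variable {D : Type} [Fintype D]

theorem bad_sep {T : Tri D} (hT : T.Conn) {S : Part D} {t x : D} {l : GR.LS} (h : LI T t S x l) {u v : List D}
    (hn : S.Sep T x u v) : Bad T t (2 * l.r + 3) := by
  obtain ⟨hu, hv, hw, hx, hy, hnc, hd1, hd2⟩ := hn
  obtain ⟨z₁, w₁, rfl⟩ := List.exists_cons_of_ne_nil hu
  obtain ⟨z, w, rfl⟩ := List.exists_cons_of_ne_nil hv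
  have hle : (S.glue x (T.a x) hx hy).Le T := Part.glue_le S hx hy h.le rfl
  have hcon : (S.glue x (T.a x) hx hy).Con := Part.con_glue S hx hy h.ex.con
  have e1 : (S.glue x (T.a x) hx hy).hw z₁ = z₁ :: w₁ := Part.hw_glue_split_left S hx hy hw rfl
  have e2 : (S.glue x (T.a x) hx hy).hw z = z :: w := Part.hw_glue_split_right S hx hy hw rfl
  have hz1 : z₁ ∈ (S.glue x (T.a x) hx hy).B := mem_glue_B hx hy hw (Or.inl List.mem_cons_self)
  have hz : z ∈ (S.glue x (T.a x) hx hy).B := mem_glue_B hx hy hw (Or.inr List.mem_cons_self)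
  have hR : (S.glue x (T.a x) hx hy).R.Nonempty := ⟨t, by rw [Part.glue_R]; exact h.tR⟩
  have hxy : x ≠ T.a x := fun e => T.ane x e.symm
  have hB := Part.glue_B S hx hy hxy
  set G := S.glue x (T.a x) hx hy with hG
  have hcase : ∀ d ∈ G.B, d ∈ G.hw z₁ ∨ d ∈ G.hw z := by
    intro d hd
    rw [hB] at hd
    obtain ⟨h3, h4⟩ := hd
    have h5 := h.one d h3
    rw [hw, List.mem_cons, List.mem_append] at h5
    rw [e1, e2]
    rcases h5 with h5 | h5 | h5
    · exact absurd (Or.inl h5) h4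
    · exact Or.inl h5
    · rcases List.mem_cons.1 h5 with h6 | h6
      · exact absurd (Or.inr h6) h4
      · exact Or.inr h6
  have hall : ∀ d ∈ G.B, G.Hc T z₁ d ∨ G.Hc T z d := by
    intro d hd
    rcases hcase d hd with h3 | h3
    · exact Or.inl (Part.hc_hole hz1 h3)
    · exact Or.inr (Part.hc_hole hz h3)
  have h1 : ¬ G.Hc T z₁ z := by
    intro h2
    apply hnc
    have key : ∀ d ∈ G.X, G.Hc T z₁ d := by
      intro d hd
      obtain ⟨e, he, hde⟩ := Part.hc_meets hle hT hR hd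
      rcases hall e he with h3 | h3
      · exact Part.hc_trans h3 (Part.hc_symm hde)
      · exact Part.hc_trans h2 (Part.hc_trans h3 (Part.hc_symm hde))
    exact fun d hd e he => Part.hc_trans (Part.hc_symm (key d hd)) (key e he)
  have hu1 : ∀ d ∈ G.B, G.Hc T z₁ d → d ∈ G.hw z₁ := by
    intro d hd h3
    rcases hcase d hd with h4 | h4
    · exact h4
    · exact absurd (Part.hc_trans h3 (Part.hc_symm (Part.hc_hole hz h4))) h1
  have hu2 : ∀ d ∈ G.B, G.Hc T z d → d ∈ G.hw z := by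
    intro d hd h3
    rcases hcase d hd with h4 | h4
    · exact absurd (Part.hc_trans (Part.hc_hole hz1 h4) (Part.hc_symm h3)) h1
    · exact h4
  have hg1 : (G.fill T hle z₁).gen12 ≠ G.gen12 := by
    intro hgen
    obtain ⟨a, ha3⟩ := Part.hc_three hle z₁
    exact hd1 z₁ List.mem_cons_self a ⟨hz1, hu1, ha3, fun _ => hgen⟩
  have hg2 : (G.fill T hle z).gen12 ≠ G.gen12 := by
    intro hgen
    obtain ⟨a, ha3⟩ := Part.hc_three hle z
    exact hd2 z List.mem_cons_self a ⟨hz, hu2, ha3, fun _ => hgen⟩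
  obtain ⟨w1, w2, q1, q2, hw1, hw2, hq1, hq2, hf1, hf2, h01, h02, h0, hwA⟩ := handle_coc hT hle hcon hz1 hu1 hg1
  obtain ⟨y1, y2, -, -, hy1, hy2, -, -, -, -, -, -, k0, hyA⟩ := handle_coc hT hle hcon hz hu2 hg2
  have hsup : ∀ d, (y1 d ≠ 0 ∨ y2 d ≠ 0) → (d ∈ G.R ∧ d ∉ G.B) ∨ d ∈ G.HC T z := by
    intro d hd
    by_cases hX : d ∈ G.X
    · right
      by_contra h3
      obtain ⟨h4, h5⟩ := k0 d hX h3
      rcases hd with h6 | h6
      · exact h6 h4
      · exact h6 h5
    · left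
      exact ⟨not_not.1 fun h3 => hX (Or.inl h3), fun h3 => hX (Or.inr h3)⟩
  have hX : ∀ d ∈ G.HC T z, w1 d = 0 ∧ w2 d = 0 := by
    intro d hd'
    refine h0 d hd'.1 fun h3 => h1 ?_
    exact Part.hc_trans h3.2 (Part.hc_symm hd'.2)
  obtain ⟨lb, hl, hne⟩ := sep_hol hT hle hz1 h1 hall hu1 hy1 hy2 (fun d hd => hsup d (Or.inl hd))
    (fun d hd => hsup d (Or.inr hd)) hyA hw1 hw2 hq1 hq2 hf1 hf2 h01 h02 (fun d hd => (hX d hd).1)
    (fun d hd => (hX d hd).2) hwA
  rw [e1] at hne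
  exact bad_of hT h hw hu rfl hl hne

end SYS
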