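import Pool.Agent.SYS.UT.Run

/-!
# SYS-LR: layer islands, definitions

The face of the dart `t` is explored by the layer rule `lrule 3`.  `LI`: invariant of the exploration.  DO NOT CHANGE.
-/

namespace SYS

open Classical SST

variable {D : Type}

/-- The face of `t` as an explored region. -/
noncomputable def tri0 (T : Tri D) (t : D) : Part D :=
  (Part.emp : Part D).newTri t (T.f t) (T.f (T.f t)) (by simp [Part.R, Part.emp]) (by simp [Part.R, Part.emp])
    (by simp [Part.R, Part.emp]) (Part.tri_ne T t).1 (Part.tri_ne T t).2.1 (Part.tri_ne T t).2.2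

/-- All darts of the vertex `v` of `T` are revealed, with their edges. -/
def Part.Cpl (S : Part D) (T : Tri D) (v : T.V) : Prop := ∀ d, T.tl d = v → d ∈ S.R ∧ d ∉ S.B

/-- The vertex `v` is at distance at most `k` from the face of `t`. -/
def Fd (T : Tri D) (t : D) (k : ℕ) (v : T.V) : Prop :=
  ∃ e, (e = t ∨ e = T.f t ∨ e = T.f (T.f t)) ∧ Dle T k (T.tl e) v

theorem Fd.of {T : Tri D} {t : D} {k : ℕ} {v : T.V} (h : Dle T k (T.tl t) v) : Fd T t k v := ⟨t, Or.inl rfl, h⟩

/-- Invariant of the exploration of the layers around the face of `t` in `T`: `S` = explored region (a disc), `x` = gate, `l` = state of the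
layer rule.  The hole word is read from the successor of the gate; the gate is its last element. -/
structure LI [Finite D] (T : Tri D) (t : D) (S : Part D) (x : D) (l : GR.LS) : Prop where
  le : S.Le T
  ex : Part.Expl T S 0
  tR : t ∈ S.R
  hx : x ∈ S.B
  one : ∀ d ∈ S.B, d ∈ S.hw x
  al : 1 ≤ l.al
  p : S.per x = l.p
  /-- labels: walks from the corner of `t` -/
  pos : ∀ (i : ℕ) (e : D), (S.hw (S.nx x))[i]? = some e →
    ∃ π, S.Car T t π e ∧ π.length ≤ l.r + 1 + if i < l.al then 0 else 1
  /-- the vertices of the completed layers are completed -/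
  cov : ∀ k < l.r, ∀ v, Fd T t k v → S.Cpl T v
  /-- the vertices of the current layer which are not completed have an old corner -/
  old : ∀ v, Fd T t l.r v → S.Cpl T v ∨ ∃ i < l.al, ∃ e, (S.hw (S.nx x))[i]? = some e ∧ T.tl e = v

/-- `S'` is the island of `r` layers around the face of `t`, explored by the word `w`. -/
structure Ild [Finite D] (T : Tri D) (t : D) (r : ℕ) (w : List Stp) (S' : Part D) (x' : D) : Prop where
  rch : Part.Rch (lrule 3) [] (tri0 T t) t w S' x'
  le : S'.Le T
  hc : S'.HConn T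
  lay : GR.lay 3 w = r
  pre : ∀ u, u <+: w → u ≠ w → GR.lay 3 u < r
  ex : Part.Expl T S' 0
  hx : x' ∈ S'.B
  one : ∀ d ∈ S'.B, d ∈ S'.hw x'
  /-- the boundary is near -/
  bd : ∀ b ∈ S'.B, Dle T (r + 1) (T.tl t) (T.tl b)
  /-- the ball is covered -/
  cov : ∀ d, Dle T (r - 1) (T.tl t) (T.tl d) → d ∈ S'.R ∧ d ∉ S'.B ∧ ∀ e, S'.s.SameCycle d e → e ∈ S'.R ∧ e ∉ S'.B
  /-- short closed walks are contractible -/
  nul : ∀ c, T.IsWalk (T.tl t) c (T.tl t) → c.length ≤ 2 * (r - 1) → T.NullHtp c

/-- There is a short closed walk through the vertex of `t` which is not contractible. -/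
def Bad (T : Tri D) (t : D) (L : ℕ) : Prop :=
  ∃ c : List D, T.IsWalk (T.tl t) c (T.tl t) ∧ c.length ≤ L ∧ ¬ T.NullHtp c

end SYS
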