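import Pool.Agent.SYS.LR.Defs
import Pool.Agent.SYS.Lib.ExplB

/-!
# SYS-LR-ExS: planar steps and `Expl`

PLAN.  Case `T`: `S' = S.face x t0 t1 t2 ..` and `S'.Le T` give `t0 = T.a x`, `t1 = T.f t0`, `t2 = T.f t1` (copy the computation `e0, e1, e2` from the case `T` of
`tinv_st` in `UT/LInv.lean`); `Part.Expl.face`.
Cases `L`, `R`: `G := S.glue x y`; `T.a x = y` by `gl_ax` (`UT/LInv.lean`, as in `tinv_st`).  The swallowed word (`v` for `L`, `u` for `R`) is empty: `S' = G`, `Part.Expl.disc` with
`DW T []` (first constructor of `DW`).  Not empty: let `z₁` be its first element; `G.hw z₁` = this word (`hw_glue_split_right`, `hw_glue_split_left`), it is `IsDisc` (`Part.disc_iff`),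
`S' = G.fill T hle z₁` (`Part.fil_le_hc`), all exactly as in `tinv_st`, cases `L`, `R`.  `DW T (G.hw z₁)` by `Part.planar_word` as in `UT/InvD.lean` (line 110), where
`gen12` of the filling is the fourth component of `IsDisc`; so `Expl T G c` by `Part.Expl.disc` and `Expl T S' c` by `Part.Expl.fill`: `S'.Con` = `Part.con_fill`; `S'.B ⊆ G.B` and its last
hypothesis by `fill_B` and `IsDisc` (a boundary dart of `G` which is not in `S'.B` is in the hidden component of `z₁`, so it is in `G.hw z₁`, by `IsDisc`; its hole is the one of `z₁`,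
all of its elements are in the hidden component: `Part.hc_hole`).
-/

namespace SYS

open Classical SST

variable {D : Type} [Finite D]

private theorem es_core {T : Tri D} (hT : T.Conn) {S S' : Part D} {c : ℕ} {x y : D} (h : Part.Expl T S c) (hx : x ∈ S.B)
    (hy : y ∈ S.B) {u v m : List D} (hw : S.hw x = x :: (u ++ y :: v)) (hm : m = u ∨ m = v) {a : ℕ}
    (hd : (S.glue x y hx hy).DiscFill S' m a) (hL : S'.Le T) : Part.Expl T S' c := by
  have hgl : (S.glue x y hx hy).Sub S' := by
    rcases hd with ⟨-, -, h1⟩ | ⟨-, V, -, hf⟩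
    · rw [h1]; exact Part.sub_refl _
    · exact hf.sub
  have ha : T.a x = y := gl_ax hx hy hgl hL (ne_of_word hx hw)
  have hle : (S.glue x y hx hy).Le T := Part.sub_le hgl hL
  have hor : DW T m → DW T u ∨ DW T v := by
    intro h1
    rcases hm with rfl | rfl
    · exact Or.inl h1
    · exact Or.inr h1
  rcases hd with ⟨h0, -, h1⟩ | ⟨hne, V, hV, hf⟩
  · rw [h1]
    refine Part.Expl.disc S c x y hx hy ha u v hw (hor ?_) h
    rw [h0]
    exact DW.nil
  · obtain ⟨z₁, m', hz⟩ := List.exists_cons_of_ne_nil hne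
    have hwz : (S.glue x y hx hy).hw z₁ = m := by
      rcases hm with rfl | rfl
      · exact Part.hw_glue_split_left S hx hy hw hz
      · exact Part.hw_glue_split_right S hx hy hw hz
    have hz1m : z₁ ∈ m := by rw [hz]; exact List.mem_cons_self
    have hzB : z₁ ∈ (S.glue x y hx hy).B := by
      refine mem_glue_B hx hy hw ?_
      rcases hm with rfl | rfl
      · exact Or.inl hz1m
      · exact Or.inr hz1m
    have hdisc : (S.glue x y hx hy).IsDisc T z₁ a :=
      (Part.disc_iff hle hzB a).2 ⟨S', by rw [hwz]; exact Or.inr ⟨hne, V, hV, hf⟩, hL⟩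
    have hH : (S.glue x y hx hy).HUn {d | d ∈ m} := by rw [← hwz]; exact hun_hw hzB
    have heq : S' = (S.glue x y hx hy).fill T hle z₁ := (Part.fil_le_hc hle hH hf hL hz1m).2
    have hcon : (S.glue x y hx hy).Con := Part.con_glue S hx hy h.con
    have hB : ((S.glue x y hx hy).fill T hle z₁).B ⊆ (S.glue x y hx hy).B := by
      rw [Part.fill_B]
      exact Set.sdiff_subset
    have hg : ((S.glue x y hx hy).fill T hle z₁).gen12 = (S.glue x y hx hy).gen12 := hdisc.2.2.2 hle
    have hPn : ∀ d ∈ (S.glue x y hx hy).hw z₁, d ∉ ((S.glue x y hx hy).fill T hle z₁).B := by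
      intro d hd' hh
      rw [Part.fill_B] at hh
      exact hh.2 ⟨Or.inr hh.1, Part.hc_hole hzB hd'⟩
    have hDW : DW T m := by
      rw [← hwz]
      exact Part.planar_word hcon (Part.sub_fill hle z₁) (Part.fill_le hle z₁) hB hg hzB hPn
    have hG : Part.Expl T (S.glue x y hx hy) c := Part.Expl.disc S c x y hx hy ha u v hw (hor hDW) h
    rw [heq]
    refine hG.fill (Part.sub_fill hle z₁) (Part.fill_le hle z₁) (Part.con_fill hle hT hcon ⟨z₁, Part.B_sub_R _ hzB⟩ z₁) hB hg ?_
    intro d hd1 hd2 e he he2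
    rw [Part.fill_B] at hd2 he2
    have h3 : d ∈ (S.glue x y hx hy).HC T z₁ := by
      by_contra h4
      exact hd2 ⟨hd1, h4⟩
    exact he2.2 ⟨Or.inr he2.1, Part.hc_trans h3.2 (Part.hc_hole hd1 he)⟩

theorem expl_st {T : Tri D} (hT : T.Conn) {S S' : Part D} {c : ℕ} {x z : D} {s : Stp} (h : Part.Expl T S c)
    (hs : S.St x s S' z) (hL : S'.Le T) : Part.Expl T S' c := by
  cases s with
  | T =>
    obtain ⟨t0, t1, t2, hx, h0, h1, h2, h01, h12, h20, hS', hz⟩ := hs
    have hxR : x ∈ S.R := S.B_sub_R hx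
    have hne : ∀ {d e : D}, d ∈ S.R → e ∉ S.R → d ≠ e := fun hd he hde => he (hde ▸ hd)
    have e3 : S'.a x = t0 := by
      rw [hS']
      show (S.a * Equiv.swap x t0) x = t0
      rw [Equiv.Perm.mul_apply, Equiv.swap_apply_left]
      exact S.af t0 (not_not.1 h0)
    have e0 : t0 = T.a x := by
      rw [← e3]
      refine (hL.2 x ?_).symm
      rw [e3]
      exact (hne hxR h0).symm
    have e4 : S'.f t0 = t1 := by
      have h3 := Part.face_s_x S hx h0 h1 h2 h01 h12 h20
      rw [← hS', Part.s_apply, e3] at h3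
      exact h3
    have e1 : t1 = T.f t0 := by
      rw [← e4]
      refine (hL.1 t0 ?_).symm
      rw [e4]
      exact h01.symm
    have ht1B : t1 ∈ S'.B := by
      rw [hS', Part.face_B]
      exact Or.inr (Or.inl rfl)
    have e5 : S'.f t1 = t2 := by
      have h3 := Part.face_s_t1 S hx h0 h1 h2 h01 h12 h20
      rw [← hS', Part.s_apply, ht1B.2] at h3
      exact h3
    have e2 : t2 = T.f t1 := by
      rw [← e5]
      refine (hL.1 t1 ?_).symm
      rw [e5]
      exact h12.symm
    subst e0
    subst e1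
    subst e2
    rw [hS']
    exact Part.Expl.face S c x hx h0 h1 h2 h
  | L k a =>
    obtain ⟨y, u, v, w, hx, hy, hw, hk, hu, hd⟩ := hs
    exact es_core hT h hx hy hw (Or.inr rfl) hd hL
  | R k a =>
    obtain ⟨y, u, v, w, hx, hy, hw, hk, hv, hd⟩ := hs
    exact es_core hT h hx hy hw (Or.inl rfl) hd hL

end SYS
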