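import Pool.Agent.SYS.LR.Cpl

/-!
# SYS-LR-LiA: start of the layer exploration; the next layer

PLAN.
* `li_start`: `GR.start 3 = ⟨0, 3, 0⟩`.  `tri0_le`: `Part.newTri_le`, `Part.emp_le`.  `ex`: `Part.Expl.start t` (the same region: `rfl` or `unfold tri0`).  `R`, `B`: `Part.newTri_R`, `Part.newTri_B`, `emp` has none:
  `R = B = {t, T.f t, T.f (T.f t)}`; `Part.hw_newTri`: `hw t = [t, T.f t, T.f (T.f t)]`; `nx t = T.f t` (`nx_append`), `hw (nx t) = [T.f t, T.f (T.f t), t]` (`hw_nx`); `per = 3` (`hw_length`).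
  `pos`: all `i < 3`; walks from the corner of `t` to the corner of `e ∈ {T.f t, T.f (T.f t), t}` of length `≤ 1`: `[t]` (`Part.car_single`, `Part.vt_nx`, `car_vt`; `S.f t = T.f t` is itself
  the corner), `[T.a (T.f (T.f t))]` (`car_rev` of `car_single` for the dart `T.f (T.f t)`), `[]`.
  `cov`: `k < 0`.  `old`: `Fd T t 0 v`: `Dle T 0 (T.tl e) v` means `T.tl e = v`, `e` one of the three darts, its index is `< 3`.
* `fd_succ`: `Dle T (k+1) (T.tl e) v`: the walk is empty (`Dle T 0`, so `Fd T t k v`; use the monotonicity) or `c ++ [d]` (`Tri.walk_split`): `Dle T k (T.tl e) (T.tl d)` and `T.hd d = v`.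
* `old_next`: all vertices at distance `≤ r` are completed; `Fd T t (r+1) v`: by `fd_succ`: `Fd T t r v` (done: completed), or `v = T.hd d = T.tl (T.a d)` with `Fd T t r (T.tl d)`, so `d ∈ R \ B`,
  `S.a d ≠ d`, `T.a d = S.a d ∈ R` (`h.2`, `mem_R_a`); `cpl_or` for `T.a d`.
-/

namespace SYS

open Classical SST

variable {D : Type} [Finite D]

theorem tri0_le (T : Tri D) (t : D) : (tri0 T t).Le T :=
  Part.newTri_le _ _ _ _ _ _ _ (Part.emp_le T) rfl rfl

omit [Finite D] in
private theorem la_R (T : Tri D) (t d : D) : d ∈ (tri0 T t).R ↔ d = t ∨ d = T.f t ∨ d = T.f (T.f t) := by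
  unfold tri0
  rw [Part.newTri_R]
  constructor
  · rintro (h | h)
    · exact absurd rfl h
    · exact h
  · intro h
    exact Or.inr h

omit [Finite D] in
private theorem la_B (T : Tri D) (t d : D) : d ∈ (tri0 T t).B ↔ d = t ∨ d = T.f t ∨ d = T.f (T.f t) := by
  unfold tri0
  rw [Part.newTri_B]
  constructor
  · rintro (h | h)
    · exact absurd rfl h.1
    · exact h
  · intro h
    exact Or.inr h

theorem tri0_per (T : Tri D) (t : D) : t ∈ (tri0 T t).B ∧ (tri0 T t).per t = 3 ∧ (tri0 T t).hw t = [t, T.f t, T.f (T.f t)] := by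
  have h1 : t ∈ (tri0 T t).B := (la_B T t t).2 (Or.inl rfl)
  have h2 : (tri0 T t).hw t = [t, T.f t, T.f (T.f t)] := by
    unfold tri0
    exact Part.hw_newTri _ _ _ _ _ _ _
  refine ⟨h1, ?_, h2⟩
  rw [← Part.hw_length _ h1, h2]
  rfl

theorem li_start (T : Tri D) (t : D) : LI T t (tri0 T t) t (GR.start 3) := by
  obtain ⟨hB, hper, hw⟩ := tri0_per T t
  have hle := tri0_le T t
  have hfR : ∀ d, d ∈ (tri0 T t).R → (tri0 T t).f d = T.f d := fun d hd => (hle.1 d hd).symm
  have hnx : (tri0 T t).nx t = T.f t := nx_append hB (u := []) (v := [T.f (T.f t)]) hw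
  have hwn : (tri0 T t).hw ((tri0 T t).nx t) = [T.f t, T.f (T.f t), t] := hw_nx hB (u := [T.f t, T.f (T.f t)]) hw
  have htR : t ∈ (tri0 T t).R := (la_R T t t).2 (Or.inl rfl)
  have hffR : T.f (T.f t) ∈ (tri0 T t).R := (la_R T t _).2 (Or.inr (Or.inr rfl))
  have hc1 : (tri0 T t).Car T t [t] (T.f t) := by
    have h1 := Part.car_single T htR
    rw [hfR t htR] at h1
    exact h1
  have hc2 : (tri0 T t).Car T t [T.a (T.f (T.f t))] (T.f (T.f t)) := by
    have h1 := Part.car_single T hffR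
    rw [hfR _ hffR, T.fff] at h1
    exact Part.car_rev h1
  refine ⟨hle, Part.Expl.start t, htR, hB, ?_, by show 1 ≤ 3; norm_num, hper, ?_, ?_, ?_⟩
  · intro d hd
    rw [hw]
    rcases (la_B T t d).1 hd with rfl | rfl | rfl
    · simp
    · simp
    · simp
  · intro i e hi
    rw [hwn] at hi
    have hlt : i < 3 := by
      have := (List.getElem?_eq_some_iff.1 hi).1
      simpa using this
    have h3 : (if i < (GR.start 3).al then 0 else 1) = 0 := if_pos hlt
    rw [h3]
    show ∃ π, (tri0 T t).Car T t π e ∧ π.length ≤ 0 + 1 + 0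
    rcases i with _ | _ | _ | i
    · have h4 : T.f t = e := by simpa using hi
      rw [← h4]
      exact ⟨_, hc1, le_rfl⟩
    · have h4 : T.f (T.f t) = e := by simpa using hi
      rw [← h4]
      exact ⟨_, hc2, le_rfl⟩
    · have h4 : t = e := by simpa using hi
      rw [← h4]
      exact ⟨[], Relation.EqvGen.refl _, Nat.zero_le _⟩
    · omega
  · intro k hk
    exact absurd hk (Nat.not_lt_zero _)
  · rintro v ⟨e, he, l, hl, hl0⟩
    right
    have h1 : l = [] := List.length_eq_zero_iff.1 (Nat.le_zero.1 hl0)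
    rw [h1] at hl
    have h2 : T.tl e = v := hl
    rcases he with rfl | rfl | rfl
    · exact ⟨2, by show 2 < 3; norm_num, e, by rw [hwn]; rfl, h2⟩
    · exact ⟨0, by show 0 < 3; norm_num, _, by rw [hwn]; rfl, h2⟩
    · exact ⟨1, by show 1 < 3; norm_num, _, by rw [hwn]; rfl, h2⟩

omit [Finite D] in
theorem fd_mono {T : Tri D} {t : D} {k k' : ℕ} (hk : k ≤ k') {v : T.V} (h : Fd T t k v) : Fd T t k' v := by
  obtain ⟨e, he, l, hl, hk2⟩ := h
  exact ⟨e, he, l, hl, hk2.trans hk⟩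

omit [Finite D] in
theorem fd_succ {T : Tri D} {t : D} {k : ℕ} {v : T.V} (h : Fd T t (k + 1) v) : Fd T t k v ∨ ∃ d, Fd T t k (T.tl d) ∧ T.hd d = v := by
  obtain ⟨e, he, l, hl, hk⟩ := h
  rcases List.eq_nil_or_concat l with rfl | ⟨c, d, rfl⟩
  · exact Or.inl ⟨e, he, [], hl, Nat.zero_le _⟩
  · right
    rw [List.concat_eq_append] at hl hk
    obtain ⟨u, h1, h2⟩ := T.walk_split hl
    have h3 : T.tl d = u := h2.1
    have h4 : T.hd d = v := h2.2
    refine ⟨d, ⟨e, he, c, by rw [h3]; exact h1, ?_⟩, h4⟩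
    rw [List.length_append, List.length_singleton] at hk
    omega

theorem old_next {S : Part D} {T : Tri D} (h : S.Le T) {t : D} {r : ℕ} (hr : ∀ v, Fd T t r v → S.Cpl T v) {v : T.V}
    (hv : Fd T t (r + 1) v) : S.Cpl T v ∨ ∃ b ∈ S.B, T.tl b = v := by
  rcases fd_succ hv with h1 | ⟨d, h1, rfl⟩
  · exact Or.inl (hr v h1)
  · obtain ⟨h2, h3⟩ := hr _ h1 d rfl
    have h4 : S.a d ≠ d := fun h4 => h3 ⟨h2, h4⟩
    have h5 : T.a d ∈ S.R := by
      rw [h.2 d h4]
      exact (S.mem_R_a d).2 h2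
    exact cpl_or h h5

end SYS
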