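import Pool.Agent.SYS.LR.Wd
import Pool.Agent.SYS.LR.ExS

/-!
# SYS-LR-LiL: the invariant after a step `L`

PLAN.  `st_w_L`: `W = S.hw (S.nx x) = u ++ y :: (v ++ [x])`, `|v| = k`, `W' = u ≠ []`; `|W| = l.p` so `k + 2 + |u| = l.p` and `k + 3 ≤ l.p`.  Element `i` of `W'` is element `i` of `W`.
`T.tl y = T.hd x` (`y = T.a x`) `= T.tl (S.nx x)` (`tl_nx`), and `S.nx x` is the first element of `u` (`hw_cons` for `S.nx x`).
* `le`, `ex` (`expl_st`), `tR`, `hx`, `one` (the hole word of the gate has the same elements as `W'`), `p` (`|W'| = |u|`), `al`: easy.  `pos`: the same darts and walks (`car_sub`), labels as in `tinv_st` (`UT/LInv.lean`, case `L`).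
* `cov`: `cpl_sub`.  `old`: completed in `S`: `cpl_sub`.  Otherwise a dart `e` of index `i < l.al` in `W`: `i < |u|`: the same index in `W'` (it is `< al'`: `al' = l.al`, or `al' = |u|`);
  `i = |u|`: `e = y`: take the first element of `u`, index `0 < al'`; `i > |u|`: `e ∈ v` or `e = x`: completed by `st_w_L`.
-/

namespace SYS

open Classical SST

variable {D : Type} [Finite D]

theorem li_L {T : Tri D} (hT : T.Conn) {S S' : Part D} {t x z : D} {l : GR.LS} {k a : ℕ} (h : LI T t S x l)
    (hs : S.St x (.L k a) S' z) (hL : S'.Le T) :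
    (Stp.L k a).Ok l.p ∧ LI T t S' (gat S' (.L k a) z) (l.step (.L k a)) := by
  obtain ⟨y, u, v, hxy, hW, hk, hu, hgB, hW', hB', hC⟩ := st_w_L h.one hs hL
  have hex := expl_st hT h.ex hs hL
  have hsub := (Part.st_sub hs).1
  generalize hgt : gat S' (.L k a) z = gt at *
  have hx1 : S.nx x ∈ S.B := (Part.nx_mem S).2 h.hx
  have hsx : S.s.SameCycle x (S.nx x) := by
    have h1 := (Part.nx_pow_same S h.hx 1).2
    rwa [pow_one] at h1
  have hg1 : S'.nx gt ∈ S'.B := (Part.nx_mem S').2 hgB
  have hsg : S'.s.SameCycle gt (S'.nx gt) := by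
    have h1 := (Part.nx_pow_same S' hgB 1).2
    rwa [pow_one] at h1
  have hlen : k + 2 + u.length = l.p := by
    rw [← h.p, Part.per_same S hsx, ← Part.hw_length S hx1, hW]
    simp only [List.length_append, List.length_cons, List.length_nil]
    omega
  have hul : 1 ≤ u.length := List.length_pos_iff.2 hu
  have hok : (Stp.L k a).Ok l.p := show k + 3 ≤ l.p by omega
  have hpp : l.p = l.al + l.be := rfl
  have hal := h.al
  -- the first element of `u`
  obtain ⟨z1, u', hzu⟩ := List.exists_cons_of_ne_nil hu
  have hz1 : T.tl y = T.tl z1 := by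
    have h1 : S.nx x = z1 := by
      obtain ⟨q, hq⟩ := Part.hw_cons S hx1
      rw [hW, hzu] at hq
      exact (List.cons.inj hq).1.symm
    have h2 := tl_nx h.le h.hx
    rw [h1] at h2
    rw [h2, ← hxy]
    rfl
  -- elements of the word
  have hWi : ∀ (i : ℕ) (e : D), (S.hw (S.nx x))[i]? = some e → (i < u.length ∧ u[i]? = some e) ∨
      (i = u.length ∧ e = y) ∨ (e ∈ v ∨ e = x) := by
    intro i e hi
    rw [hW] at hi
    rcases Nat.lt_trichotomy i u.length with h1 | h1 | h1
    · rw [List.getElem?_append_left h1] at hi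
      exact Or.inl ⟨h1, hi⟩
    · rw [List.getElem?_append_right (by omega), show i - u.length = 0 by omega] at hi
      have h2 : y = e := by simpa using hi
      exact Or.inr (Or.inl ⟨h1, h2.symm⟩)
    · rw [List.getElem?_append_right (by omega), show i - u.length = (i - (u.length + 1)) + 1 by omega,
        List.getElem?_cons_succ] at hi
      have h2 := List.mem_of_getElem? hi
      rw [List.mem_append, List.mem_singleton] at h2
      exact Or.inr (Or.inr h2)
  have hidx : ∀ (i : ℕ) (e : D), (S'.hw (S'.nx gt))[i]? = some e → i < u.length ∧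
      ∃ π, S'.Car T t π e ∧ π.length ≤ l.r + 1 + if i < l.al then 0 else 1 := by
    intro i e hi
    rw [hW'] at hi
    have h1 : i < u.length := (List.getElem?_eq_some_iff.1 hi).1
    refine ⟨h1, ?_⟩
    have h2 : (S.hw (S.nx x))[i]? = some e := by
      rw [hW, List.getElem?_append_left h1]
      exact hi
    obtain ⟨π, h3, h4⟩ := h.pos _ e h2
    exact ⟨π, Part.car_sub hsub h3, h4⟩
  have hone : ∀ d ∈ S'.B, d ∈ S'.hw gt := by
    intro d hd
    have h1 := hB' d hd
    rw [← hW'] at h1
    have h2 := (Part.mem_hw S' hg1).1 h1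
    exact (Part.mem_hw S' hgB).2 ⟨h2.1, hsg.trans h2.2⟩
  have hper : S'.per gt = u.length := by
    rw [Part.per_same S' hsg, ← Part.hw_length S' hg1, hW']
  refine ⟨hok, ?_⟩
  by_cases hb : k + 2 ≤ l.be
  · have h1 : l.step (.L k a) = ⟨l.r, l.al, l.be - (k + 2)⟩ := by simp only [GR.LS.step, if_pos hb]
    rw [h1]
    refine ⟨hL, hex, hsub.R_sub h.tR, hgB, hone, hal, ?_, ?_, ?_, ?_⟩
    · rw [hper]
      show u.length = l.al + (l.be - (k + 2))
      omega
    · intro i e hi
      exact (hidx i e hi).2
    · intro k' hk' w hw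
      exact cpl_sub hsub (h.cov k' hk' w hw)
    · intro w hw
      rcases h.old w hw with h2 | ⟨i, hi, e, he, hew⟩
      · exact Or.inl (cpl_sub hsub h2)
      · rcases hWi i e he with ⟨h3, h4⟩ | ⟨h3, h4⟩ | h3
        · right
          refine ⟨i, hi, e, ?_, hew⟩
          rw [hW']
          exact h4
        · right
          refine ⟨0, ?_, z1, ?_, ?_⟩
          · show 0 < l.al
            omega
          · rw [hW', hzu]
            rfl
          · rw [← hz1, ← h4, hew]
        · left
          rw [← hew]
          exact hC e h3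
  · have h1 : l.step (.L k a) = ⟨l.r, l.al + l.be - (k + 2), 0⟩ := by simp only [GR.LS.step, if_neg hb]
    rw [h1]
    refine ⟨hL, hex, hsub.R_sub h.tR, hgB, hone, ?_, ?_, ?_, ?_, ?_⟩
    · show 1 ≤ l.al + l.be - (k + 2)
      omega
    · rw [hper]
      show u.length = l.al + l.be - (k + 2) + 0
      omega
    · intro i e hi
      obtain ⟨h2, π, h3, h4⟩ := hidx i e hi
      rw [if_pos (by omega)] at h4
      exact ⟨π, h3, h4.trans (by show l.r + 1 + 0 ≤ l.r + 1 + _; omega)⟩
    · intro k' hk' w hw
      exact cpl_sub hsub (h.cov k' hk' w hw)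
    · intro w hw
      rcases h.old w hw with h2 | ⟨i, hi, e, he, hew⟩
      · exact Or.inl (cpl_sub hsub h2)
      · rcases hWi i e he with ⟨h3, h4⟩ | ⟨h3, h4⟩ | h3
        · right
          refine ⟨i, ?_, e, ?_, hew⟩
          · show i < l.al + l.be - (k + 2)
            omega
          · rw [hW']
            exact h4
        · right
          refine ⟨0, ?_, z1, ?_, ?_⟩
          · show 0 < l.al + l.be - (k + 2)
            omega
          · rw [hW', hzu]
            rfl
          · rw [← hz1, ← h4, hew]
        · left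
          rw [← hew]
          exact hC e h3

end SYS
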