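import Pool.Agent.SYS.LR.Wd
import Pool.Agent.SYS.LR.ExS
import Pool.Agent.SYS.LR.LiA

/-!
# SYS-LR-LiR: the invariant after a step `R`

PLAN.  `st_w_R`: `W = S.hw (S.nx x) = u ++ y :: (v ++ [x])`, `|u| = k`, `W' = v ≠ []`; `|W| = l.p` so `k + 2 + |v| = l.p` and `k + 3 ≤ l.p`.  Element `i` of `W'` is element `k + 1 + i` of `W`.
`T.tl x` = `T.tl` of the first element of `v`: `T.tl x = T.hd y` (`y = T.a x`, `Tri.hd_a`) `= T.tl (S.nx y)` (`tl_nx`), `S.nx y` is the first element of `v` (`nx_append` for `S.hw x = x :: (u ++ y :: v)`: `hw_nx` backwards: `S.hw (S.nx x) = (u ++ y :: v) ++ [x]`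
and `hw_cons`).
* `le`, `ex` (`expl_st`), `tR`, `hx`, `one` (the hole word of the gate has the same elements as `W'`), `p` (`|W'| = |v|`), `al`: easy.  `pos`: the same darts and walks (`car_sub`), labels as in `tinv_st` (`UT/LInv.lean`, case `R`,
  `hidx` and the three cases of `GR.LS.step`).
* `old`, `cov` in the cases `l.be = 0` and (`l.be ≠ 0`, `k + 2 ≤ l.al`): `l.r` does not change: `cov`: `cpl_sub`.  `old`: completed in `S`: `cpl_sub`.  Otherwise a dart `e` of index `i < l.al` in `W`: `i ≤ k`: completed by `st_w_R`.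
  `k < i`, `e ∈ v`: index `i - (k + 1)` in `W'`, `< l.al - (k+1)`; in the case `l.be = 0` the new number of old corners is all of `W'` (`al - (k+2) = |v|`), fine.  `e = x` (`i = l.p - 1`; only if `l.be = 0`): take the first element of `v` (same vertex).
* case `l.be ≠ 0`, `l.al < k + 2`: `l.step = ⟨l.r + 1, |v|, 0⟩`.  All vertices with `Fd T t l.r v` are completed in `S'`: index `i < l.al ≤ k + 1`, so `i ≤ k`.  `cov` for `k' < l.r + 1`: `fd_mono`.  `old`: `old_next` gives a boundary dart of `S'`, which is in `v = W'`; every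
  index is `< |v| = al'`.
-/

namespace SYS

open Classical SST

variable {D : Type} [Finite D]

theorem li_R {T : Tri D} (hT : T.Conn) {S S' : Part D} {t x z : D} {l : GR.LS} {k a : ℕ} (h : LI T t S x l)
    (hs : S.St x (.R k a) S' z) (hL : S'.Le T) :
    (Stp.R k a).Ok l.p ∧ LI T t S' (gat S' (.R k a) z) (l.step (.R k a)) := by
  obtain ⟨y, u, v, hxy, hW, hk, hv, hgB, hW', hB', hC⟩ := st_w_R h.one hs hL
  have hex := expl_st hT h.ex hs hL
  have hsub := (Part.st_sub hs).1
  generalize hgt : gat S' (.R k a) z = gt at *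
  have hx1 : S.nx x ∈ S.B := (Part.nx_mem S).2 h.hx
  have hsx : S.s.SameCycle x (S.nx x) := by
    have h1 := (Part.nx_pow_same S h.hx 1).2
    rwa [pow_one] at h1
  have hg1 : S'.nx gt ∈ S'.B := (Part.nx_mem S').2 hgB
  have hsg : S'.s.SameCycle gt (S'.nx gt) := by
    have h1 := (Part.nx_pow_same S' hgB 1).2
    rwa [pow_one] at h1
  have hlen : k + 2 + v.length = l.p := by
    rw [← h.p, Part.per_same S hsx, ← Part.hw_length S hx1, hW]
    simp only [List.length_append, List.length_cons, List.length_nil]
    omega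
  have hvl : 1 ≤ v.length := List.length_pos_iff.2 hv
  have hok : (Stp.R k a).Ok l.p := show k + 3 ≤ l.p by omega
  have hpp : l.p = l.al + l.be := rfl
  have hal := h.al
  -- the first element of `v`
  obtain ⟨z1, v', hzv⟩ := List.exists_cons_of_ne_nil hv
  have hyB : y ∈ S.B := by
    have h1 : y ∈ S.hw (S.nx x) := by
      rw [hW]
      simp
    exact ((Part.mem_hw S hx1).1 h1).1
  have hz1 : T.tl x = T.tl z1 := by
    have h1 : S.nx y = z1 := by
      refine nx_append hx1 (u := u) (v := v' ++ [x]) ?_
      rw [hW, hzv]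
      rfl
    rw [← h1, tl_nx h.le hyB, ← hxy, T.hd_a]
  -- elements of the word
  have hWi : ∀ (i : ℕ) (e : D), (S.hw (S.nx x))[i]? = some e → (i ≤ k ∧ (e ∈ u ∨ e = y)) ∨
      (k < i ∧ i < k + 1 + v.length ∧ v[i - (k + 1)]? = some e) ∨ (i = k + 1 + v.length ∧ e = x) := by
    intro i e hi
    rw [hW] at hi
    rcases Nat.lt_trichotomy i k with h1 | h1 | h1
    · rw [List.getElem?_append_left (by omega)] at hi
      exact Or.inl ⟨h1.le, Or.inl (List.mem_of_getElem? hi)⟩
    · rw [List.getElem?_append_right (by omega), show i - u.length = 0 by omega] at hi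
      have h2 : y = e := by simpa using hi
      exact Or.inl ⟨h1.le, Or.inr h2.symm⟩
    · rw [List.getElem?_append_right (by omega), show i - u.length = (i - (k + 1)) + 1 by omega,
        List.getElem?_cons_succ] at hi
      rcases Nat.lt_or_ge (i - (k + 1)) v.length with h2 | h2
      · rw [List.getElem?_append_left h2] at hi
        exact Or.inr (Or.inl ⟨h1, by omega, hi⟩)
      · rw [List.getElem?_append_right h2] at hi
        have h3 : i - (k + 1) - v.length = 0 := by
          have h4 := (List.getElem?_eq_some_iff.1 hi).1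
          simp only [List.length_cons, List.length_nil] at h4
          omega
        rw [h3] at hi
        have h4 : x = e := by simpa using hi
        exact Or.inr (Or.inr ⟨by omega, h4.symm⟩)
  have hidx : ∀ (i : ℕ) (e : D), (S'.hw (S'.nx gt))[i]? = some e → i < v.length ∧
      ∃ π, S'.Car T t π e ∧ π.length ≤ l.r + 1 + if k + 1 + i < l.al then 0 else 1 := by
    intro i e hi
    rw [hW'] at hi
    have h1 : i < v.length := (List.getElem?_eq_some_iff.1 hi).1
    refine ⟨h1, ?_⟩
    have h2 : (S.hw (S.nx x))[k + 1 + i]? = some e := by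
      rw [hW, List.getElem?_append_right (by omega), show k + 1 + i - u.length = i + 1 by omega,
        List.getElem?_cons_succ, List.getElem?_append_left h1]
      exact hi
    obtain ⟨π, h3, h4⟩ := h.pos _ e h2
    exact ⟨π, Part.car_sub hsub h3, h4⟩
  have hone : ∀ d ∈ S'.B, d ∈ S'.hw gt := by
    intro d hd
    have h1 := hB' d hd
    rw [← hW'] at h1
    have h2 := (Part.mem_hw S' hg1).1 h1
    exact (Part.mem_hw S' hgB).2 ⟨h2.1, hsg.trans h2.2⟩
  have hper : S'.per gt = v.length := by
    rw [Part.per_same S' hsg, ← Part.hw_length S' hg1, hW']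
  refine ⟨hok, ?_⟩
  by_cases hb : l.be = 0
  · have h1 : l.step (.R k a) = ⟨l.r, l.al - (k + 2), 0⟩ := by simp only [GR.LS.step, if_pos hb]
    rw [h1]
    refine ⟨hL, hex, hsub.R_sub h.tR, hgB, hone, ?_, ?_, ?_, ?_, ?_⟩
    · show 1 ≤ l.al - (k + 2)
      omega
    · rw [hper]
      show v.length = l.al - (k + 2) + 0
      omega
    · intro i e hi
      obtain ⟨h2, π, h3, h4⟩ := hidx i e hi
      rw [if_pos (by omega)] at h4
      exact ⟨π, h3, h4.trans (by show l.r + 1 + 0 ≤ l.r + 1 + _; omega)⟩
    · intro k' hk' w hw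
      exact cpl_sub hsub (h.cov k' hk' w hw)
    · intro w hw
      rcases h.old w hw with h2 | ⟨i, hi, e, he, hew⟩
      · exact Or.inl (cpl_sub hsub h2)
      · rcases hWi i e he with ⟨-, h3⟩ | ⟨h3, h4, h5⟩ | ⟨h3, h4⟩
        · left
          rw [← hew]
          exact hC e h3
        · right
          refine ⟨i - (k + 1), ?_, e, ?_, hew⟩
          · show i - (k + 1) < l.al - (k + 2)
            omega
          · rw [hW']
            exact h5
        · right
          refine ⟨0, ?_, z1, ?_, ?_⟩
          · show 0 < l.al - (k + 2)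
            omega
          · rw [hW', hzv]
            rfl
          · rw [← hz1, ← h4, hew]
  · by_cases hc : k + 2 ≤ l.al
    · have h1 : l.step (.R k a) = ⟨l.r, l.al - (k + 1), l.be - 1⟩ := by
        simp only [GR.LS.step, if_neg hb, if_pos hc]
      rw [h1]
      refine ⟨hL, hex, hsub.R_sub h.tR, hgB, hone, ?_, ?_, ?_, ?_, ?_⟩
      · show 1 ≤ l.al - (k + 1)
        omega
      · rw [hper]
        show v.length = l.al - (k + 1) + (l.be - 1)
        omega
      · intro i e hi
        obtain ⟨h2, π, h3, h4⟩ := hidx i e hi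
        refine ⟨π, h3, ?_⟩
        show π.length ≤ l.r + 1 + if i < l.al - (k + 1) then 0 else 1
        split_ifs at h4 ⊢ <;> omega
      · intro k' hk' w hw
        exact cpl_sub hsub (h.cov k' hk' w hw)
      · intro w hw
        rcases h.old w hw with h2 | ⟨i, hi, e, he, hew⟩
        · exact Or.inl (cpl_sub hsub h2)
        · rcases hWi i e he with ⟨-, h3⟩ | ⟨h3, h4, h5⟩ | ⟨h3, h4⟩
          · left
            rw [← hew]
            exact hC e h3
          · right
            refine ⟨i - (k + 1), ?_, e, ?_, hew⟩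
            · show i - (k + 1) < l.al - (k + 1)
              omega
            · rw [hW']
              exact h5
          · omega
    · have h1 : l.step (.R k a) = ⟨l.r + 1, l.al + l.be - (k + 2), 0⟩ := by
        simp only [GR.LS.step, if_neg hb, if_neg hc]
      have hall : ∀ w, Fd T t l.r w → S'.Cpl T w := by
        intro w hw
        rcases h.old w hw with h2 | ⟨i, hi, e, he, hew⟩
        · exact cpl_sub hsub h2
        · rcases hWi i e he with ⟨-, h3⟩ | ⟨h3, h4, h5⟩ | ⟨h3, h4⟩
          · rw [← hew]
            exact hC e h3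
          · omega
          · omega
      rw [h1]
      refine ⟨hL, hex, hsub.R_sub h.tR, hgB, hone, ?_, ?_, ?_, ?_, ?_⟩
      · show 1 ≤ l.al + l.be - (k + 2)
        omega
      · rw [hper]
        show v.length = l.al + l.be - (k + 2) + 0
        omega
      · intro i e hi
        obtain ⟨h2, π, h3, h4⟩ := hidx i e hi
        refine ⟨π, h3, ?_⟩
        show π.length ≤ l.r + 1 + 1 + _
        split_ifs at h4 <;> omega
      · intro k' hk' w hw
        exact hall w (fd_mono (Nat.lt_succ_iff.1 hk') hw)
      · intro w hw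
        rcases old_next hL hall hw with h2 | ⟨b, hb', hbw⟩
        · exact Or.inl h2
        · right
          obtain ⟨i, hi, hib⟩ := List.getElem_of_mem (hB' b hb')
          refine ⟨i, ?_, b, ?_, hbw⟩
          · show i < l.al + l.be - (k + 2)
            omega
          · rw [hW', List.getElem?_eq_getElem hi, hib]

end SYS
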