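import Pool.Agent.SYS.LR.Wd
import Pool.Agent.SYS.LR.ExS

/-!
# SYS-LR-LiT: the invariant after a step `T`

PLAN.  `st_w_T`: `t1 := T.f (T.a x)`, `t2 := T.f t1`; `W = S.hw (S.nx x) = u ++ [x]`, `W' = u ++ [t1, t2]`; `l.step .T = ⟨l.r, l.al, l.be + 1⟩`; `|u| + 1 = l.p` (`hw_length`, `per_same`).
* `le`, `ex` (`expl_st`), `tR` (`Sub.R_sub`), `hx`: `t2 ∈ S'.B` (`Part.face_B`); `one`: `face_B`: `d ∈ S.B \ {x}` is in `u` (`one`, `mem_hw`, `hw x = x :: u`) or `d = t1, t2`; the hole word of the new gate `t2` has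
  the same elements as `W'` (`hw_rot`, or `mem_hw` and `nx_pow_same`).  `p`: length of `W'` (`hw_length`).
* `pos`: index `i < |u|`: the same dart, `car_sub`.  `i = |u|`: `t1`: walk of `x` (index `|u|` in `W`); `S'.Vt x t1`: `x ∈ S'.R \ S'.B`, `S'.s x = t1` (`Part.face_s_x`), `car_vt`.  `i = |u| + 1`: `t2`: walk `π` of
  `S.nx x` (index `0` of `W`, label `≤ l.r + 1` because `0 < l.al`) followed by `T.a t2`: `Edge`: `Or.inr`: `T.a (T.a t2) = t2 ∈ R`, `S'.f t2 = t0 = T.a x` is at the vertex of `S.nx x`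
  (`S'.Vt`: in `S`: `Vt (S.f x) (S.nx x)` (`Part.vt_nx`) and `S'.s t0 = S.s x = S.f x` (`Part.face_s_t0`), `t0 ∉ S'.B`).  Length `l.r + 2`; `|u| + 1 = l.p ≥ l.al`, so its index is not `< l.al`.
* `cov`: `cpl_sub`.  `old`: completed in `S`: `cpl_sub`.  Otherwise index `i < l.al`: if `i < |u|` the same dart; `i = |u|`: the dart `x`, take `t1` (`T.tl t1 = T.hd (T.a x) = T.tl x`: `Tri.tl_f`, `Tri.hd_a`).
-/

namespace SYS

open Classical SST

variable {D : Type} [Finite D]

theorem li_T {T : Tri D} (hT : T.Conn) {S S' : Part D} {t x z : D} {l : GR.LS} (h : LI T t S x l) (hs : S.St x .T S' z)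
    (hL : S'.Le T) : LI T t S' (gat S' .T z) (l.step .T) := by
  obtain ⟨u, hx, h0, h1, h2, hS', hz, hgt, hW, hW'⟩ := st_w_T hs hL
  have hex := expl_st hT h.ex hs hL
  have hsub := (Part.st_sub hs).1
  have hB : S'.B = (S.B \ {x}) ∪ {T.f (T.a x), T.f (T.f (T.a x))} := by
    rw [hS', Part.face_B]
  have hR : S'.R = S.R ∪ {T.a x, T.f (T.a x), T.f (T.f (T.a x))} := by
    rw [hS', Part.face_R]
  have s1 : S'.s x = T.f (T.a x) := by
    rw [hS', Part.face_s_x]
  have s2 : S'.s (T.f (T.f (T.a x))) = T.a x := by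
    rw [hS', Part.face_s_t2]
  have s0 : S'.s (T.a x) = S.s x := by
    rw [hS', Part.face_s_t0]
  have ht1 : T.tl (T.f (T.a x)) = T.tl x := by
    rw [T.tl_f, T.hd_a]
  obtain ⟨n1, n2, n3⟩ := Part.tri_ne T (T.a x)
  rw [hgt] at hW' ⊢
  clear hS' hz hgt hs
  generalize hT0 : T.a x = t0 at *
  generalize hT1 : T.f t0 = t1 at *
  generalize hT2 : T.f t1 = t2 at *
  have hxR : x ∈ S.R := Part.B_sub_R S hx
  have hx1 : S.nx x ∈ S.B := (Part.nx_mem S).2 hx
  have hsx : S.s.SameCycle x (S.nx x) := by
    have h3 := (Part.nx_pow_same S hx 1).2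
    rwa [pow_one] at h3
  have hgB : t2 ∈ S'.B := by
    rw [hB]
    exact Or.inr (Or.inr rfl)
  have hg1 : S'.nx t2 ∈ S'.B := (Part.nx_mem S').2 hgB
  have hsg : S'.s.SameCycle t2 (S'.nx t2) := by
    have h3 := (Part.nx_pow_same S' hgB 1).2
    rwa [pow_one] at h3
  have hlen : u.length + 1 = l.p := by
    rw [← h.p, Part.per_same S hsx, ← Part.hw_length S hx1, hW]
    simp only [List.length_append, List.length_cons, List.length_nil]
  have hpp : l.p = l.al + l.be := rfl
  have hal := h.al
  have hxB' : x ∉ S'.B := by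
    rw [hB]
    rintro (h3 | h3 | h3)
    · exact h3.2 rfl
    · exact h1 (h3 ▸ hxR)
    · exact h2 (h3 ▸ hxR)
  have ht0B : t0 ∉ S'.B := by
    rw [hB]
    rintro (h3 | h3 | h3)
    · exact h0 (Part.B_sub_R S h3.1)
    · exact n1 h3
    · exact n3 h3.symm
  have ht0R : t0 ∈ S'.R := by
    rw [hR]
    exact Or.inr (Or.inl rfl)
  have hv1 : S'.Vt x t1 := Relation.EqvGen.rel _ _ ⟨hsub.R_sub hxR, hxB', s1.symm⟩
  have hv0 : S'.Vt (S.nx x) t0 := by
    have h3 : S'.Vt (S.f x) (S.nx x) := Part.vt_sub hsub (Part.vt_nx hx)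
    have h4 : S'.Vt t0 (S.f x) := by
      refine Relation.EqvGen.rel _ _ ⟨ht0R, ht0B, ?_⟩
      rw [s0, Part.s_apply, hx.2]
    exact Relation.EqvGen.symm _ _ (Relation.EqvGen.trans _ _ _ h4 h3)
  have hf2 : S'.f t2 = t0 := by
    rw [← s2, Part.s_apply, hgB.2]
  refine ⟨hL, hex, hsub.R_sub h.tR, hgB, ?_, hal, ?_, ?_, ?_, ?_⟩
  · intro d hd
    have h3 : d ∈ S'.hw (S'.nx t2) := by
      rw [hW']
      rw [hB] at hd
      rcases hd with h4 | h4 | h4
      · have h5 : d ∈ S.hw (S.nx x) := by
          have h6 := (Part.mem_hw S hx).1 (h.one d h4.1)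
          exact (Part.mem_hw S hx1).2 ⟨h6.1, hsx.symm.trans h6.2⟩
        rw [hW, List.mem_append, List.mem_singleton] at h5
        rcases h5 with h5 | h5
        · exact List.mem_append_left _ h5
        · exact absurd h5 h4.2
      · rw [h4]
        simp
      · rw [h4]
        simp
    have h4 := (Part.mem_hw S' hg1).1 h3
    exact (Part.mem_hw S' hgB).2 ⟨h4.1, hsg.trans h4.2⟩
  · rw [Part.per_same S' hsg, ← Part.hw_length S' hg1, hW']
    show (u ++ [t1, t2]).length = l.al + (l.be + 1)
    simp only [List.length_append, List.length_cons, List.length_nil]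
    omega
  · intro i e hi
    show ∃ π, S'.Car T t π e ∧ π.length ≤ l.r + 1 + if i < l.al then 0 else 1
    rw [hW'] at hi
    have hlt : i < u.length + 2 := by
      have := (List.getElem?_eq_some_iff.1 hi).1
      simpa using this
    rcases Nat.lt_trichotomy i u.length with c1 | c1 | c1
    · rw [List.getElem?_append_left c1] at hi
      obtain ⟨π, h3, h4⟩ := h.pos i e (by
        rw [hW, List.getElem?_append_left c1]
        exact hi)
      exact ⟨π, Part.car_sub hsub h3, h4⟩
    · rw [List.getElem?_append_right (by omega), show i - u.length = 0 by omega] at hi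
      have h3 : e = t1 := by simpa using hi.symm
      obtain ⟨π, h4, h5⟩ := h.pos i x (by
        rw [hW, List.getElem?_append_right (by omega), show i - u.length = 0 by omega]
        rfl)
      refine ⟨π, ?_, h5⟩
      rw [h3]
      exact Part.car_vt (Relation.EqvGen.refl _) (Part.car_sub hsub h4) hv1
    · rw [List.getElem?_append_right (by omega), show i - u.length = 1 by omega] at hi
      have h3 : e = t2 := by simpa using hi.symm
      obtain ⟨q, hq⟩ := Part.hw_cons S hx1
      obtain ⟨π, h4, h5⟩ := h.pos 0 (S.nx x) (by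
        rw [hq]
        rfl)
      rw [if_pos (by omega)] at h5
      refine ⟨π ++ [T.a t2], ?_, ?_⟩
      · rw [h3]
        refine Part.car_append (Part.car_sub hsub h4) ⟨t2, Or.inr ⟨?_, ?_, ?_⟩, Relation.EqvGen.refl _⟩
        · rw [T.aa]
          exact Part.B_sub_R S' hgB
        · rw [T.aa, hf2]
          exact hv0
        · rw [T.aa]
          exact Relation.EqvGen.refl _
      · rw [List.length_append, List.length_singleton, if_neg (by omega)]
        omega
  · intro k' hk' w hw
    exact cpl_sub hsub (h.cov k' hk' w hw)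
  · intro w hw
    rcases h.old w hw with h3 | ⟨i, hi, e, he, hew⟩
    · exact Or.inl (cpl_sub hsub h3)
    · right
      rw [hW] at he
      rcases Nat.lt_or_ge i u.length with c1 | c1
      · rw [List.getElem?_append_left c1] at he
        refine ⟨i, hi, e, ?_, hew⟩
        rw [hW', List.getElem?_append_left c1]
        exact he
      · have c2 : i = u.length := by
          have h4 := (List.getElem?_eq_some_iff.1 he).1
          simp only [List.length_append, List.length_cons, List.length_nil] at h4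
          omega
        rw [List.getElem?_append_right c1, show i - u.length = 0 by omega] at he
        have h4 : x = e := by simpa using he
        refine ⟨i, hi, t1, ?_, ?_⟩
        · rw [hW', List.getElem?_append_right c1, show i - u.length = 0 by omega]
          rfl
        · rw [ht1, h4, hew]

end SYS
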