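import Pool.Agent.SYS.LR.Cpl

/-!
# SYS-LR-NulH: walks through completed vertices are carried by the region

PLAN.
* `car_cpl`: induction on `c` (general `p`).  `c = []`: `T.tl p = T.tl q`, completed by `hv [] []`: `vt_cpl`.  `c = e :: c'`: `T.tl e = T.tl p` is completed, so `e ∈ R \ B`; the edge `e`:
  `Or.inl ⟨e ∈ R, vt_cpl .., refl⟩` in `Part.Edge` with `r := S.f e` (`T.tl (S.f e) = T.tl (T.f e) = T.hd e`: `h.1`, `Tri.tl_f`; `S.f e ∈ R`: `mem_R_f`), then the
  induction hypothesis for `c'` from `S.f e` (walks `e :: c₁`).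
* `nul_of`: every vertex of a closed walk of length `≤ 2 m` is at distance `≤ m` from its initial vertex: for `c = c₁ ++ c₂` use `c₁` if `|c₁| ≤ m`, and the reverse of `c₂` (`Tri.walk_rev`)
  otherwise.  `car_cpl`, `Part.Expl.nullHtp`.
-/

namespace SYS

open Classical SST

variable {D : Type} [Finite D]

theorem car_cpl {S : Part D} {T : Tri D} (h : S.Le T) {c : List D} : ∀ {p q : D}, T.IsWalk (T.tl p) c (T.tl q) →
    (∀ c₁ c₂, c = c₁ ++ c₂ → ∀ v, T.IsWalk (T.tl p) c₁ v → S.Cpl T v) → S.Car T p c q := by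
  induction c with
  | nil =>
    intro p q hw hv
    have h1 : T.tl p = T.tl q := hw
    exact vt_cpl h (hv [] [] rfl _ rfl) h1.symm
  | cons e c ih =>
    rintro p q ⟨he, hw⟩ hv
    have hp : S.Cpl T (T.tl p) := hv [] (e :: c) rfl _ rfl
    obtain ⟨heR, -⟩ := hp e he
    have h2 : T.tl (S.f e) = T.hd e := by
      rw [← h.1 e heR, Tri.tl_f]
    refine ⟨S.f e, Or.inl ⟨heR, vt_cpl h hp he, Relation.EqvGen.refl _⟩, ih (by rw [h2]; exact hw) ?_⟩
    intro c₁ c₂ hc v hv'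
    refine hv (e :: c₁) c₂ (by rw [hc]; rfl) v ⟨he, ?_⟩
    rw [← h2]
    exact hv'

theorem nul_of {T : Tri D} (hT : T.Conn) {S : Part D} (hS : Part.Expl T S 0) {p : D} (hp : p ∈ S.R) {m : ℕ}
    (hm : ∀ v, Dle T m (T.tl p) v → S.Cpl T v) {c : List D} (hc : T.IsWalk (T.tl p) c (T.tl p)) (hl : c.length ≤ 2 * m) :
    T.NullHtp c := by
  refine hS.nullHtp hT hp (car_cpl hS.le hc ?_)
  intro c₁ c₂ hcc v hv
  by_cases h1 : c₁.length ≤ m
  · exact hm v ⟨c₁, hv, h1⟩
  · rw [hcc] at hc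
    obtain ⟨v', h2, h3⟩ := T.walk_split hc
    have h4 : v' = v := T.walk_end h2 hv
    subst h4
    refine hm v' ⟨(c₂.map T.a).reverse, T.walk_rev h3, ?_⟩
    rw [List.length_reverse, List.length_map]
    rw [hcc, List.length_append] at hl
    omega

end SYS
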