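import Pool.Agent.SYS.LR.Rn
import Pool.Agent.SYS.LR.NulH
import Pool.Agent.SYS.LR.BdN
import Pool.Agent.SYS.LR.BdS

/-!
# SYS-LR-Main: layer islands

PLAN.  `S0 := tri0 T t`.
* `tri0_typ`: `Part.typ_newTri` of `Part.typ_emp` (`2 * n = F + 1`).
* `tri0_of`: `T.f t = (newTri ..).f t = t1` because this is not `t` (`Part.Le`; `f` of `newTri` is `1 * cyc3 t t1 t2`: `Part.newTri_sub`, or `simp [Part.newTri, cyc3]`; values as in `face_f0` of `Lib/Rch.lean`); then `subst`, `rfl`.
* `isl_of`: `li_rch` with `li_start` (`tri0_per`: `per = 3 = wend 3 []`) gives `LI`; `GR.lay 3 w = (GR.lrun (GR.start 3) w).r` by definition; `hc`: `li_hconn`; `bd`: `b` is in `S'.hw (S'.nx x')` (`LI.one`, the words have the same elements: `mem_hw`, `nx_pow_same`), at some index `i`; the state `l' = GR.lrun ..`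
  has `l'.be = 0` if `r ≥ 1`, because the run ends at the first word with `r` layers (`lay_be`: the last step changes `l.r`, so it is an `R` step of the last type), so `i < l'.al` (`|W| = l'.p = l'.al`), and `pos` gives a walk of length `≤ r + 1` (`Part.car_walk`).  `cov`: `LI.cov` with `k = r - 1 < r`, `Fd.of`,
  `cpl_same`.  `nul`: `nul_of` with `m = r - 1`, `LI.cov`.
* `isl_or_bad`: `ex_run` for `tri0 T t` with `h = []`, `p0 = 3`, `N = 2 * (2 * n - 1) + 3`, `li_start`, `tri0_typ`.  First alternative: `isl_of` (`LI.le`).  Second alternative: `bad_ns`, `bad_sep`: `2 * l.r + 3 ≤ 2 * (r - 1) + 3 ≤ 2 * r + 1`.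
* `isl_unique`: `Part.rch_cmp` (`ho := Or.inl (0 < g)`) gives `w <+: w'` or `w' <+: w`; by `pre` and `lay` they are equal; `Part.rch_unique` with `U := Part.ofTri T`.
-/

namespace SYS

open Classical SST

private theorem mn_pos {n : ℕ} (t : Fin (6 * n)) : 1 ≤ n := by
  have := t.2
  omega

theorem tri0_typ {n : ℕ} (T : Tri (Fin (6 * n))) (t : Fin (6 * n)) : (tri0 T t).Typ [t] [3] (2 * n - 1) 0 := by
  have hn := mn_pos t
  have h1 : (Part.emp : Part (Fin (6 * n))).Typ [] [] (2 * n - 1 + 1) 0 := by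
    have h2 := Part.typ_emp hn
    rwa [show 2 * n - 1 + 1 = 2 * n by omega]
  exact Part.typ_newTri h1 _ _ _ _ _ _

/-- When a layer is completed there is no new corner. -/
theorem lay_be {l : GR.LS} {w : List Stp} (h : ∀ u, u <+: w → u ≠ w → (GR.lrun l u).r < (GR.lrun l w).r) (hw : w ≠ []) :
    (GR.lrun l w).be = 0 := by
  rcases List.eq_nil_or_concat w with h1 | ⟨u, s, rfl⟩
  · exact absurd h1 hw
  · rw [List.concat_eq_append] at h ⊢
    have h2 := h u (List.prefix_append _ _) (by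
      intro h3
      have h4 := congrArg List.length h3
      rw [List.length_append, List.length_singleton] at h4
      omega)
    have h5 : GR.lrun l (u ++ [s]) = (GR.lrun l u).step s := by
      rw [GR.lrun_append]
      rfl
    rw [h5] at h2 ⊢
    rcases GR.step_r (GR.lrun l u) s with h6 | h6
    · omega
    · exact h6.2

/-- A new triangle below `T` is the face of `T`. -/
theorem tri0_of {D : Type} [Finite D] {T : Tri D} {t t1 t2 : D} (h0 : t ∉ (Part.emp : Part D).R) (h1 : t1 ∉ (Part.emp : Part D).R)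
    (h2 : t2 ∉ (Part.emp : Part D).R) (h01 : t ≠ t1) (h12 : t1 ≠ t2) (h20 : t2 ≠ t)
    (h : ((Part.emp : Part D).newTri t t1 t2 h0 h1 h2 h01 h12 h20).Le T) :
    (Part.emp : Part D).newTri t t1 t2 h0 h1 h2 h01 h12 h20 = tri0 T t := by
  have f0 : ((Part.emp : Part D).newTri t t1 t2 h0 h1 h2 h01 h12 h20).f t = t1 := by
    have hf : (Part.emp : Part D).f t1 = t1 := rfl
    show ((Part.emp : Part D).f * cyc3 t t1 t2) t = t1
    rw [Equiv.Perm.mul_apply, cyc3, Equiv.Perm.mul_apply, Equiv.swap_apply_of_ne_of_ne h01 h20.symm, Equiv.swap_apply_left, hf]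
  have f1 : ((Part.emp : Part D).newTri t t1 t2 h0 h1 h2 h01 h12 h20).f t1 = t2 := by
    have hf : (Part.emp : Part D).f t2 = t2 := rfl
    show ((Part.emp : Part D).f * cyc3 t t1 t2) t1 = t2
    rw [Equiv.Perm.mul_apply, cyc3, Equiv.Perm.mul_apply, Equiv.swap_apply_left, Equiv.swap_apply_of_ne_of_ne h20 h12.symm, hf]
  have e1 : T.f t = t1 := by
    rw [h.1 t (by rw [f0]; exact h01.symm), f0]
  have e2 : T.f t1 = t2 := by
    rw [h.1 t1 (by rw [f1]; exact h12.symm), f1]
  subst e1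
  subst e2
  rfl

/-- Every run which ends with `r` complete layers explores an island. -/
theorem isl_of {n g : ℕ} {T : Tri (Fin (6 * n))} (hT : T ∈ Trn n g) {t : Fin (6 * n)} {r : ℕ} (hr : 1 ≤ r)
    {w : List Stp} {S' : Part (Fin (6 * n))} {x' : Fin (6 * n)} (h : Part.Rch (lrule 3) [] (tri0 T t) t w S' x') (hL : S'.Le T)
    (hw : GR.lay 3 w = r) (hp : ∀ u, u <+: w → u ≠ w → GR.lay 3 u < r) : Ild T t r w S' x' := by
  have hLI : LI T t S' x' (GR.lrun (GR.start 3) w) :=
    li_rch hT.1 w (li_start T t) (show (tri0 T t).per t = wend 3 [] from (tri0_per T t).2.1) h hL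
  have hr' : (GR.lrun (GR.start 3) w).r = r := hw
  have hwne : w ≠ [] := by
    rintro rfl
    have h1 : GR.lay 3 [] = 0 := rfl
    omega
  have hbe : (GR.lrun (GR.start 3) w).be = 0 := by
    refine lay_be (fun u hu hne => ?_) hwne
    have h1 := hp u hu hne
    rw [hr']
    exact h1
  refine ⟨h, hL, li_hconn hT.1 hLI, hw, hp, hLI.ex, hLI.hx, hLI.one, ?_, ?_, ?_⟩
  · intro b hb
    have hx1 : S'.nx x' ∈ S'.B := (Part.nx_mem S').2 hLI.hx
    have hsame : S'.s.SameCycle x' (S'.nx x') := by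
      have h1 := (Part.nx_pow_same S' hLI.hx 1).2
      rwa [pow_one] at h1
    have h1 : b ∈ S'.hw (S'.nx x') := by
      have h2 := (Part.mem_hw S' hLI.hx).1 (hLI.one b hb)
      exact (Part.mem_hw S' hx1).2 ⟨h2.1, hsame.symm.trans h2.2⟩
    obtain ⟨i, hi, hib⟩ := List.getElem_of_mem h1
    have h2 : (S'.hw (S'.nx x'))[i]? = some b := by
      rw [List.getElem?_eq_getElem hi, hib]
    obtain ⟨π, hπ, hlen⟩ := hLI.pos i b h2
    have hi' : i < (GR.lrun (GR.start 3) w).al := by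
      rw [Part.hw_length S' hx1, ← Part.per_same S' hsame, hLI.p] at hi
      unfold GR.LS.p at hi
      omega
    rw [if_pos hi', hr'] at hlen
    exact ⟨π, Part.car_walk hL hLI.tR hπ, hlen⟩
  · intro d hd
    have h1 : S'.Cpl T (T.tl d) := hLI.cov (r - 1) (by omega) _ (Fd.of hd)
    exact ⟨(h1 d rfl).1, (h1 d rfl).2, fun e he => (cpl_same hL h1 he).2⟩
  · intro c hc hl
    exact nul_of hT.1 hLI.ex hLI.tR (m := r - 1) (fun v hv => hLI.cov (r - 1) (by omega) _ (Fd.of hv)) hc hl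

private theorem bad_mono {D : Type} {T : Tri D} {t : D} {L L' : ℕ} (h : Bad T t L) (hL : L ≤ L') : Bad T t L' := by
  obtain ⟨c, h1, h2, h3⟩ := h
  exact ⟨c, h1, h2.trans hL, h3⟩

/-- **Layer islands.** -/
theorem isl_or_bad {n g : ℕ} (hg : 1 ≤ g) {T : Tri (Fin (6 * n))} (hT : T ∈ Trn n g) (t : Fin (6 * n)) {r : ℕ} (hr : 1 ≤ r) :
    (∃ (w : List Stp) (S' : Part (Fin (6 * n))) (x' : Fin (6 * n)), Ild T t r w S' x') ∨ Bad T t (2 * r + 1) := by
  obtain ⟨w, S', x', hR, hLI, hc⟩ := ex_run (r := r) (p0 := 3) hg hT (2 * (2 * n - 1) + 3) (h := []) (tri0_typ T t) le_rfl (li_start T t) rfl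
    (Nat.zero_le _)
  rcases hc with ⟨h1, h2⟩ | ⟨h1, h2⟩
  · exact Or.inl ⟨w, S', x', isl_of hT hr hR hLI.le h1 h2⟩
  · right
    rcases h2 with ⟨u, v, h3⟩ | ⟨u, v, h3⟩
    · exact bad_mono (bad_ns hT.1 hLI h3) (by omega)
    · exact bad_mono (bad_sep hT.1 hLI h3) (by omega)

/-- Uniqueness of the island. -/
theorem isl_unique {n g : ℕ} (hg : 1 ≤ g) {T : Tri (Fin (6 * n))} (hT : T ∈ Trn n g) {t : Fin (6 * n)} {r : ℕ} {w w' : List Stp}
    {S' S'' : Part (Fin (6 * n))} {x' x'' : Fin (6 * n)} (h : Ild T t r w S' x') (h' : Ild T t r w' S'' x'') :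
    w = w' ∧ S' = S'' ∧ x' = x'' := by
  have hTE : T ∈ (tri0 T t).Ext g := ⟨hT, tri0_le T t⟩
  have hww : w = w' := by
    rcases Part.rch_cmp (tri0_typ T t) hTE (Or.inl hg) h.rch h'.rch h.le h'.le h.hc h'.hc with h1 | h1
    · by_contra hne
      have h2 := h'.pre w h1 hne
      rw [h.lay] at h2
      omega
    · by_contra hne
      have h2 := h.pre w' h1 (fun h3 => hne h3.symm)
      rw [h'.lay] at h2
      omega
  subst hww
  obtain ⟨h1, h2⟩ := Part.rch_unique h.rch h'.rch (U := Part.ofTri T) h.le h'.le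
  exact ⟨rfl, h1, h2⟩

end SYS
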