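import Pool.Agent.SYS.LR.RnA

/-!
# SYS-LR-Rn: the exploration continues until the layers are complete or the gate is not planar

PLAN.  Induction on `N` (`2 * F + p ≤ N`; `N = 0` is impossible: `p = S.per x ≥ 1`).  If `l.r = r`: take `w = []`.  Otherwise `l.r < r`; `Part.alt` (`κ = 0 < g`; `T ∈ S.Ext g` is `⟨hT, h.le⟩`; `HConn` by `li_hconn`):
`Mrg` is impossible (`one`, `mem_hw`); `NSt`, `Sep`: second alternative with `w = []`; `Stt s`: `S₁, z`, `S.St x s S₁ z`, `S₁.Le T`; `li_st`; `Part.st_typ` and `Part.typ_repl` for the new gate `gat S₁ s z` (in the hole of `z`: `nx_pow_same`), `2 F' + p' < 2 F + p`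
(`Stp.nx`, `Stp.vol`, `Stp.Ok`), `(l.step s).r ≤ l.r + 1 ≤ r` (`GR.step_r`: look at its statement in `GR/LSt.lean`); the induction hypothesis for `h ++ [s]`, `w`; the word is `s :: w`; `Part.Rch` of `s :: w` with `gat_eq` (`UT/Run.lean`; `S₁.per z = wend p0 (h ++ [s])`: `st_typ`,
`wend_append`).  `GR.lrun l (s :: w) = GR.lrun (l.step s) w` (`GR.lrun_cons`).  Proper prefixes `u` of `s :: w`: `u = []`: `l.r < r`; `u = s :: u'` with `u'` a proper prefix of `w`.
-/

namespace SYS

open Classical SST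

theorem ex_run {n g : ℕ} (hg : 1 ≤ g) {T : Tri (Fin (6 * n))} (hT : T ∈ Trn n g) {t : Fin (6 * n)} {p0 r : ℕ} (N : ℕ) :
    ∀ {S : Part (Fin (6 * n))} {x : Fin (6 * n)} {l : GR.LS} {h : List Stp} {p F : ℕ}, S.Typ [x] [p] F 0 → 2 * F + p ≤ N →
    LI T t S x l → p = wend p0 h → l.r ≤ r →
    ∃ (w : List Stp) (S' : Part (Fin (6 * n))) (x' : Fin (6 * n)), Part.Rch (lrule p0) h S x w S' x' ∧ LI T t S' x' (GR.lrun l w) ∧
      (((GR.lrun l w).r = r ∧ ∀ u, u <+: w → u ≠ w → (GR.lrun l u).r < r) ∨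
        ((GR.lrun l w).r < r ∧ ((∃ u v, S'.NSt T x' u v) ∨ ∃ u v, S'.Sep T x' u v))) := by
  induction N with
  | zero =>
    intro S x l h p F hS hN hI hp hr
    exfalso
    have hper : S.per x = p := by
      have h1 := hS.per
      rw [List.map_cons, List.map_nil, List.cons.injEq] at h1
      exact h1.1
    have h2 := S.per_pos hI.hx
    omega
  | succ N ih =>
    intro S x l h p F hS hN hI hp hr
    by_cases hlr : l.r = r
    · exact ⟨[], S, x, ⟨rfl, rfl⟩, hI, Or.inl ⟨hlr, fun u hu hne => absurd (List.prefix_nil.1 hu) hne⟩⟩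
    have hlt : l.r < r := lt_of_le_of_ne hr hlr
    rcases Part.alt hS ⟨hT, hI.le⟩ (li_hconn hT.1 hI) (Or.inl hg) with ⟨s, S₁, z, hs, hle, -⟩ | h1 | h1 | h1
    · obtain ⟨hok, hI1⟩ := li_st hT.1 hI hs hle
      obtain ⟨hok', F', hF', hS1⟩ := Part.st_typ hS hs
      have hz : z ∈ S₁.B := (Part.st_sub hs).2.2
      have hgat : S₁.s.SameCycle z (gat S₁ s z) := by
        cases s with
        | T => exact ((Part.nx_pow_same S₁ hz 1).2)
        | L k a => exact (Part.nx_pow_same S₁ hz _).2
        | R k a => exact (Part.nx_pow_same S₁ hz _).2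
      have hS2 : S₁.Typ [gat S₁ s z] [s.nx p] F' 0 := Part.typ_repl hS1 hI1.hx hgat
      have hp2 : s.nx p = wend p0 (h ++ [s]) := by
        rw [wend_append, ← hp]
        rfl
      have hper2 : S₁.per z = wend p0 (h ++ [s]) := by
        have h2 := hS1.per
        rw [List.map_cons, List.map_nil, List.cons.injEq] at h2
        rw [h2.1, hp2]
      have hdec : 2 * F' + s.nx p ≤ N := by
        cases s with
        | T =>
          have e1 : Stp.nx p Stp.T = p + 1 := rfl
          have e2 : Stp.vol Stp.T = 1 := rfl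
          rw [e1]
          rw [e2] at hF'
          omega
        | L k a =>
          have e0 : k + 3 ≤ p := hok'
          have e1 : Stp.nx p (Stp.L k a) = p - (k + 2) := rfl
          have e2 : Stp.vol (Stp.L k a) = a := rfl
          rw [e1]
          rw [e2] at hF'
          omega
        | R k a =>
          have e0 : k + 3 ≤ p := hok'
          have e1 : Stp.nx p (Stp.R k a) = p - (k + 2) := rfl
          have e2 : Stp.vol (Stp.R k a) = a := rfl
          rw [e1]
          rw [e2] at hF'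
          omega
      have hr2 : (l.step s).r ≤ r := by
        rcases GR.step_r l s with h2 | ⟨h2, -⟩ <;> omega
      obtain ⟨w, S', x', hw1, hw2, hw3⟩ := ih hS2 hdec hI1 hp2 hr2
      refine ⟨s :: w, S', x', ⟨S₁, z, hs, ?_⟩, hw2, ?_⟩
      · rw [gat_eq hper2]
        exact hw1
      · rcases hw3 with ⟨h3, h4⟩ | h3
        · refine Or.inl ⟨h3, fun u hu hne => ?_⟩
          cases u with
          | nil => exact hlt
          | cons a u =>
            obtain ⟨rfl, h5⟩ := List.cons_prefix_cons.1 hu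
            exact h4 u h5 fun e => hne (by rw [e])
        · exact Or.inr h3
    · exact ⟨[], S, x, ⟨rfl, rfl⟩, hI, Or.inr ⟨hlt, Or.inl h1⟩⟩
    · exact ⟨[], S, x, ⟨rfl, rfl⟩, hI, Or.inr ⟨hlt, Or.inr h1⟩⟩
    · exact absurd ((S.mem_hw hI.hx).1 (hI.one _ h1.1)).2 h1.2

end SYS
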