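import Pool.Agent.SYS.LR.LiT
import Pool.Agent.SYS.LR.LiR
import Pool.Agent.SYS.LR.LiL

/-!
# SYS-LR-RnA: runs of the layer exploration

PLAN.
* `li_st`: `cases s`, `li_T` (`Stp.Ok p .T` is `True`), `li_L`, `li_R`.
* `li_rch`: copy `tinv_rch` (`UT/Run.lean`), induction on `w`; `gat_eq`.  (`Part.Rch` uses `(S₁.nx ^ lrule p (h ++ [s])) z`, equal to `gat S₁ s z` by `gat_eq`; `S₁.per z = wend p (h ++ [s])` from `LI.p` of the new invariant (gate in the same hole: `per_same`,
  `nx_pow_same`), `GR.step_p`, `wend_append`; `S₁.Le T` by `Part.sub_le (Part.rch_sub hr) hL`.)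
* `li_hconn`: `Part.hconn_one`.
-/

namespace SYS

open Classical SST

variable {D : Type} [Finite D]

theorem li_st {T : Tri D} (hT : T.Conn) {S S' : Part D} {t x z : D} {l : GR.LS} {s : Stp} (h : LI T t S x l)
    (hs : S.St x s S' z) (hL : S'.Le T) : s.Ok l.p ∧ LI T t S' (gat S' s z) (l.step s) := by
  cases s with
  | T => exact ⟨trivial, li_T hT h hs hL⟩
  | L k a => exact li_L hT h hs hL
  | R k a => exact li_R hT h hs hL

private theorem ra_gat {S₁ : Part D} {s : Stp} {z : D} (hz : z ∈ S₁.B) : S₁.s.SameCycle z (gat S₁ s z) := by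
  cases s with
  | T => exact (Part.nx_pow_same S₁ hz 1).2
  | L k a => exact (Part.nx_pow_same S₁ hz _).2
  | R k a => exact (Part.nx_pow_same S₁ hz _).2

theorem li_rch {T : Tri D} (hT : T.Conn) {t : D} {S' : Part D} {x' : D} {p : ℕ} (w : List Stp) :
    ∀ {S : Part D} {x : D} {l : GR.LS} {h : List Stp}, LI T t S x l → S.per x = wend p h →
    Part.Rch (lrule p) h S x w S' x' → S'.Le T → LI T t S' x' (GR.lrun l w) := by
  induction w with
  | nil =>
    rintro S x l h hI hp ⟨rfl, rfl⟩ -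
    exact hI
  | cons s w ih =>
    rintro S x l h hI hp ⟨S₁, z, hs, hr⟩ hL
    have hL1 : S₁.Le T := Part.sub_le (Part.rch_sub hr) hL
    obtain ⟨hok, hI1⟩ := li_st hT hI hs hL1
    have hz : z ∈ S₁.B := (Part.st_sub hs).2.2
    have hper2 : S₁.per (gat S₁ s z) = wend p (h ++ [s]) := by
      rw [hI1.p, GR.step_p l s hok, wend_append, ← hp, hI.p]
      rfl
    have hper : S₁.per z = wend p (h ++ [s]) := by
      rw [Part.per_same S₁ (ra_gat hz), hper2]
    rw [gat_eq hper] at hr
    rw [GR.lrun_cons]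
    exact ih hI1 hper2 hr hL

theorem li_hconn {T : Tri D} (hT : T.Conn) {S : Part D} {t x : D} {l : GR.LS} (h : LI T t S x l) : S.HConn T :=
  Part.hconn_one h.le hT h.hx h.one

end SYS
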