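import Pool.Agent.SYS.LR.WdG

/-!
# SYS-LR-Wd: hole words before and after a planar step, the vertices of the swallowed darts are completed

PLAN.
* `st_w_T`: copy from the case `T` of `tinv_st` (`UT/LInv.lean`): `e0, e1, e2, hnx, hw'`.
* `st_w_R`: `S.hw (S.nx x) = (u ++ y :: v) ++ [x]` (`hw_nx`); `S'.hw z = v` (`hzw` in `tinv_st`), `S'.nx (gat ..) = z` (`nx_pow_pred`), `T.a x = y` (`gl_ax`).
  `S'.B`: if `u = []` then `S' = G`, `glue_B`; otherwise `S'.B = G.B \ {d | d ∈ u}` (`FillBy.B`).  With `one`: `d ∈ S'.B` is in `S.hw x = x :: (u ++ y :: v)`, and it is not `x`, `y`, and not in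
  `u`, so in `v`.
  Completed: `y`: if `u = []`: `glue_cpl_u`.  If `u ≠ []`: `T.tl y = T.hd x = T.tl (S.nx x)` (`tl_nx`, `T.a x = y`) and `S.nx x` is the first element of `u`; for `d ∈ u`: `cpl_of` for
  `S'`: if `S'.s.SameCycle d e`, `e ∈ S'.B` then `e ∈ G.B`, `e ∉ u`, so no element of `u` is in the `G.s`-cycle of `e` (`u` is a hole word of `G`: `hun_word`-type fact, `HUn`), so
  `fil_same` (applied to `e`) gives `G.s.SameCycle e d`, contradiction.
* `st_w_L`: the same with `v` in place of `u`; the vertex of `x` is `T.tl x = T.hd y = T.tl (S.nx y)`, and `S.nx y` is the first element of `v` (`nx_append`), or `x` if `v = []`: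
  `glue_cpl_v`.
-/

namespace SYS

open Classical SST

variable {D : Type} [Finite D]

private theorem disc_cpl {G S' : Part D} {T : Tri D} (hL : S'.Le T) {H : Set D} {F V : ℕ} (hH : G.HUn H)
    (hf : G.FillBy S' H F V) {d : D} (hd : d ∈ H) : S'.Cpl T (T.tl d) := by
  refine cpl_of hL (hf.sub.R_sub (hH.1 hd).1) fun e hde he => ?_
  rw [hf.B] at he
  have h1 : ∀ z ∈ H, ¬ G.s.SameCycle e z := fun z hz hez => he.2 (hH.2 z hz e he.1 hez.symm)
  exact h1 d hd ((Part.fil_same hH hf he.1.1 h1).1 hde.symm)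

theorem st_w_T {S S' : Part D} {T : Tri D} {x z : D} (hs : S.St x .T S' z) (hL : S'.Le T) :
    ∃ (u : List D) (hx : x ∈ S.B) (h0 : T.a x ∉ S.R) (h1 : T.f (T.a x) ∉ S.R) (h2 : T.f (T.f (T.a x)) ∉ S.R),
      S' = S.face x (T.a x) (T.f (T.a x)) (T.f (T.f (T.a x))) hx h0 h1 h2 (Part.tri_ne T _).1 (Part.tri_ne T _).2.1
        (Part.tri_ne T _).2.2 ∧ z = T.f (T.a x) ∧ gat S' .T z = T.f (T.f (T.a x)) ∧
      S.hw (S.nx x) = u ++ [x] ∧ S'.hw (S'.nx (gat S' .T z)) = u ++ [T.f (T.a x), T.f (T.f (T.a x))] := by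
  obtain ⟨t0, t1, t2, hx, h0, h1, h2, h01, h12, h20, hS', hz⟩ := hs
  subst hz
  obtain ⟨u, hu⟩ := S.hw_cons hx
  have hw' := Part.hw_face S hx h0 h1 h2 h01 h12 h20 hu
  rw [← hS'] at hw'
  have hxR : x ∈ S.R := S.B_sub_R hx
  have hne : ∀ {d e : D}, d ∈ S.R → e ∉ S.R → d ≠ e := fun hd he hde => he (hde ▸ hd)
  have e3 : S'.a x = t0 := by
    rw [hS']
    show (S.a * Equiv.swap x t0) x = t0
    rw [Equiv.Perm.mul_apply, Equiv.swap_apply_left]
    exact S.af t0 (not_not.1 h0)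
  have hzB : z ∈ S'.B := by
    rw [hS', Part.face_B]
    exact Or.inr (Or.inl rfl)
  have e0 : t0 = T.a x := by
    rw [← e3]
    refine (hL.2 x ?_).symm
    rw [e3]
    exact (hne hxR h0).symm
  have e4 : S'.f t0 = z := by
    have h3 := Part.face_s_x S hx h0 h1 h2 h01 h12 h20
    rw [← hS', Part.s_apply, e3] at h3
    exact h3
  have e1 : z = T.f t0 := by
    rw [← e4]
    refine (hL.1 t0 ?_).symm
    rw [e4]
    exact h01.symm
  have e5 : S'.f z = t2 := by
    have h3 := Part.face_s_t1 S hx h0 h1 h2 h01 h12 h20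
    rw [← hS', Part.s_apply, hzB.2] at h3
    exact h3
  have e2 : t2 = T.f z := by
    rw [← e5]
    refine (hL.1 z ?_).symm
    rw [e5]
    exact h12.symm
  have hnx : S'.nx z = t2 := nx_append hzB (u := []) (v := u) hw'
  have hwx : S.hw (S.nx x) = u ++ [x] := hw_nx hx hu
  have hzw : S'.hw t2 = (t2 :: u) ++ [z] := by
    have h9 := hw_nx hzB hw'
    rwa [hnx] at h9
  have ht2B : t2 ∈ S'.B := by
    have h9 := S'.nx_mem.2 hzB
    rwa [hnx] at h9
  have hzw2 : S'.hw (S'.nx t2) = (u ++ [z]) ++ [t2] := hw_nx ht2B (by rw [hzw]; rfl)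
  subst e0
  subst e1
  subst e2
  refine ⟨u, hx, h0, h1, h2, hS', rfl, hnx, hwx, ?_⟩
  show S'.hw (S'.nx (S'.nx _)) = _
  rw [hnx, hzw2, List.append_assoc]
  rfl

theorem st_w_R {S S' : Part D} {T : Tri D} {x z : D} {k a : ℕ} (one : ∀ d ∈ S.B, d ∈ S.hw x) (hs : S.St x (.R k a) S' z)
    (hL : S'.Le T) : ∃ (y : D) (u v : List D), T.a x = y ∧ S.hw (S.nx x) = u ++ y :: (v ++ [x]) ∧ u.length = k ∧ v ≠ [] ∧
      gat S' (.R k a) z ∈ S'.B ∧ S'.hw (S'.nx (gat S' (.R k a) z)) = v ∧ (∀ d ∈ S'.B, d ∈ v) ∧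
      (∀ d, d ∈ u ∨ d = y → S'.Cpl T (T.tl d)) := by
  obtain ⟨y, u, v, w, hx, hy, hw, hk, hv, hd⟩ := hs
  have hsx : S.St x (.R k a) S' z := ⟨y, u, v, w, hx, hy, hw, hk, hv, hd⟩
  have hxy := ne_of_word hx hw
  have hzw : S'.hw z = v := by
    obtain ⟨y'', u'', v'', g1, g2, g3⟩ := Part.st_word_R hsx
    rw [g3]
    rw [hw] at g1
    have g4 := List.tail_eq_of_cons_eq g1
    have g5 := (List.append_inj g4 (by omega)).2
    exact (List.tail_eq_of_cons_eq g5).symm
  have hzB : z ∈ S'.B := (Part.st_sub hsx).2.2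
  have hwx : S.hw (S.nx x) = (u ++ y :: v) ++ [x] := hw_nx hx hw
  have hgl : (S.glue x y hx hy).Sub S' := by
    rcases hd with ⟨-, -, h1⟩ | ⟨-, V, -, hf⟩
    · rw [h1]; exact Part.sub_refl _
    · exact hf.sub
  have ha : T.a x = y := gl_ax hx hy hgl hL hxy
  have hle : (S.glue x y hx hy).Le T := Part.sub_le hgl hL
  have hSle : S.Le T := Part.sub_le (S.glue_sub hx hy) hle
  obtain ⟨hn1, hn2⟩ := nx_pow_pred hzB
  have hmem : ∀ d ∈ S.B, d = x ∨ d ∈ u ∨ d = y ∨ d ∈ v := by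
    intro d hd
    have h1 := one d hd
    rw [hw] at h1
    simpa using h1
  refine ⟨y, u, v, ha, by rw [hwx]; simp, hk, by rw [hv]; simp, ((S'.mem_hw hzB).1 hn2).1, ?_, ?_, ?_⟩
  · show S'.hw (S'.nx ((S'.nx ^ (S'.per z - 1)) z)) = v
    rw [hn1, hzw]
  · intro d hdB
    have h1 : d ∈ (S.glue x y hx hy).B ∧ d ∉ u := by
      rcases hd with ⟨h0, -, h1⟩ | ⟨-, V, -, hf⟩
      · rw [h1] at hdB
        rw [h0]
        exact ⟨hdB, by simp⟩
      · rw [hf.B] at hdB
        exact hdB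
    rw [S.glue_B hx hy hxy] at h1
    rcases hmem d h1.1.1 with h2 | h2 | h2 | h2
    · exact absurd (Or.inl h2) h1.1.2
    · exact absurd h2 h1.2
    · exact absurd (Or.inr h2) h1.1.2
    · exact h2
  · rcases hd with ⟨h0, -, h1⟩ | ⟨hne, V, hV, hf⟩
    · intro d hd
      rw [h0] at hd
      rcases hd with hd | hd
      · exact absurd hd (by simp)
      · rw [hd, h1]
        rw [h0] at hw
        exact glue_cpl_u hx hy hw hle
    · obtain ⟨z₁, w₁, hu⟩ := List.exists_cons_of_ne_nil hne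
      have hw' := hw
      rw [hu] at hw
      have hw1 : (S.glue x y hx hy).hw z₁ = z₁ :: w₁ := Part.hw_glue_split_left S hx hy hw rfl
      have hzB1 : z₁ ∈ (S.glue x y hx hy).B := mem_glue_B hx hy hw (Or.inl (List.mem_cons_self ..))
      have hH : (S.glue x y hx hy).HUn {d | d ∈ u} := by rw [hu, ← hw1]; exact hun_hw hzB1
      have hz1 : z₁ ∈ u := by rw [hu]; exact List.mem_cons_self ..
      have hu1 : ∀ d ∈ u, S'.Cpl T (T.tl d) := fun d hd => disc_cpl hL hH hf hd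
      intro d hd
      rcases hd with hd | hd
      · exact hu1 d hd
      · have h2 : S.nx x = z₁ := nx_append hx (u := []) (v := w₁ ++ y :: v) (by rw [hw]; rfl)
        have h3 := tl_nx hSle hx
        rw [h2] at h3
        have h4 : T.hd x = T.tl y := by rw [← ha]; rfl
        rw [hd, ← h4, ← h3]
        exact hu1 z₁ hz1

theorem st_w_L {S S' : Part D} {T : Tri D} {x z : D} {k a : ℕ} (one : ∀ d ∈ S.B, d ∈ S.hw x) (hs : S.St x (.L k a) S' z)
    (hL : S'.Le T) : ∃ (y : D) (u v : List D), T.a x = y ∧ S.hw (S.nx x) = u ++ y :: (v ++ [x]) ∧ v.length = k ∧ u ≠ [] ∧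
      gat S' (.L k a) z ∈ S'.B ∧ S'.hw (S'.nx (gat S' (.L k a) z)) = u ∧ (∀ d ∈ S'.B, d ∈ u) ∧
      (∀ d, d ∈ v ∨ d = x → S'.Cpl T (T.tl d)) := by
  obtain ⟨y, u, v, w, hx, hy, hw, hk, hu, hd⟩ := hs
  have hsx : S.St x (.L k a) S' z := ⟨y, u, v, w, hx, hy, hw, hk, hu, hd⟩
  have hxy := ne_of_word hx hw
  have hzw : S'.hw z = u := by
    obtain ⟨y'', u'', v'', g1, g2, g3⟩ := Part.st_word_L hsx
    rw [g3]
    rw [hw] at g1
    have g4 := List.tail_eq_of_cons_eq g1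
    have g5 : u.length = u''.length := by
      have := congrArg List.length g4
      simp only [List.length_append, List.length_cons] at this
      omega
    exact ((List.append_inj g4 g5).1).symm
  have hzB : z ∈ S'.B := (Part.st_sub hsx).2.2
  have hwx : S.hw (S.nx x) = (u ++ y :: v) ++ [x] := hw_nx hx hw
  have hgl : (S.glue x y hx hy).Sub S' := by
    rcases hd with ⟨-, -, h1⟩ | ⟨-, V, -, hf⟩
    · rw [h1]; exact Part.sub_refl _
    · exact hf.sub
  have ha : T.a x = y := gl_ax hx hy hgl hL hxy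
  have hle : (S.glue x y hx hy).Le T := Part.sub_le hgl hL
  have hSle : S.Le T := Part.sub_le (S.glue_sub hx hy) hle
  obtain ⟨hn1, hn2⟩ := nx_pow_pred hzB
  have hmem : ∀ d ∈ S.B, d = x ∨ d ∈ u ∨ d = y ∨ d ∈ v := by
    intro d hd
    have h1 := one d hd
    rw [hw] at h1
    simpa using h1
  refine ⟨y, u, v, ha, by rw [hwx]; simp, hk, by rw [hu]; simp, ((S'.mem_hw hzB).1 hn2).1, ?_, ?_, ?_⟩
  · show S'.hw (S'.nx ((S'.nx ^ (S'.per z - 1)) z)) = u
    rw [hn1, hzw]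
  · intro d hdB
    have h1 : d ∈ (S.glue x y hx hy).B ∧ d ∉ v := by
      rcases hd with ⟨h0, -, h1⟩ | ⟨-, V, -, hf⟩
      · rw [h1] at hdB
        rw [h0]
        exact ⟨hdB, by simp⟩
      · rw [hf.B] at hdB
        exact hdB
    rw [S.glue_B hx hy hxy] at h1
    rcases hmem d h1.1.1 with h2 | h2 | h2 | h2
    · exact absurd (Or.inl h2) h1.1.2
    · exact h2
    · exact absurd (Or.inr h2) h1.1.2
    · exact absurd h2 h1.2
  · rcases hd with ⟨h0, -, h1⟩ | ⟨hne, V, hV, hf⟩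
    · intro d hd
      rw [h0] at hd
      rcases hd with hd | hd
      · exact absurd hd (by simp)
      · rw [hd, h1]
        rw [h0] at hw
        exact glue_cpl_v hx hy hw hle
    · obtain ⟨z₂, w₂, hv⟩ := List.exists_cons_of_ne_nil hne
      rw [hv] at hw
      have hw2 : (S.glue x y hx hy).hw z₂ = z₂ :: w₂ := Part.hw_glue_split_right S hx hy hw rfl
      have hzB2 : z₂ ∈ (S.glue x y hx hy).B := mem_glue_B hx hy hw (Or.inr (List.mem_cons_self ..))
      have hH : (S.glue x y hx hy).HUn {d | d ∈ v} := by rw [hv, ← hw2]; exact hun_hw hzB2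
      have hz2 : z₂ ∈ v := by rw [hv]; exact List.mem_cons_self ..
      have hv1 : ∀ d ∈ v, S'.Cpl T (T.tl d) := fun d hd => disc_cpl hL hH hf hd
      intro d hd
      rcases hd with hd | hd
      · exact hv1 d hd
      · have h2 : S.nx y = z₂ := nx_append hx (u := x :: u) (v := w₂) (by rw [hw]; rfl)
        have h3 := tl_nx hSle hy
        rw [h2] at h3
        have h4 : T.hd y = T.tl x := by rw [← ha]; exact T.hd_a x
        rw [hd, ← h4, ← h3]
        exact hv1 z₂ hz2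

end SYS
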