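import Pool.Agent.SYS.LR.Cpl

/-!
# SYS-LR-WdG: the vertex which is closed by a gluing of two neighbouring boundary darts

PLAN.
* `glue_cpl_u`: `G := S.glue x y`.  `S.nx x = y` (`nx_append` with `u := []`), so in `S` the cycle of `s` runs from `x` to `y` without boundary darts in between; `G.s = S.s * swap x y`
  (`glue_s`): `G.s y = S.s x`, so the `G.s`-cycle of `y` is `y, S.s x, S.s^2 x, ..` up to the return to `y`: it contains no dart of `G.B = S.B \ {x, y}`.  (Formally: `exists_ret`/`ret_spec`: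
  `S.nx x = (S.s ^ (j+1)) x`, `(S.s ^ (i+1)) x ∉ B` for `i < j`; the set `Z = {(S.s ^ (i+1)) x | i ≤ j}` is mapped to itself by `G.s`: `G.s ((S.s^(j+1)) x) = G.s y = S.s x`; for the others
  `G.s = S.s` since they are not `x`, `y`.  `y ∈ Z`.)  Then `cpl_of` (`y ∈ G.R`: `glue_R`).
* `glue_cpl_v`: the same with `x` and `y` exchanged: `S.hw y = y :: (x :: u)` (`hw_rot`), `glue` is symmetric (`glue_swap` in `UT/EndS.lean` is private: copy it, 3 lines).
-/

namespace SYS

open Classical SST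

variable {D : Type} [Finite D]

theorem glue_cpl_u {S : Part D} {T : Tri D} {x y : D} (hx : x ∈ S.B) (hy : y ∈ S.B) {v : List D} (hw : S.hw x = x :: y :: v)
    (h : (S.glue x y hx hy).Le T) : (S.glue x y hx hy).Cpl T (T.tl y) := by
  have hnd := S.hw_nodup hx
  rw [hw] at hnd
  have hxy : x ≠ y := by
    intro h1
    apply (List.nodup_cons.1 hnd).1
    rw [h1]
    exact List.mem_cons_self
  have hnx : S.nx x = y := nx_append hx (u := []) (v := v) hw
  obtain ⟨j, h1, h2, h3⟩ := ret_spec S.s hx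
  have h4 : (S.s ^ (j + 1)) x = y := by rw [← h1]; exact hnx
  have hgs : ∀ d, (S.glue x y hx hy).s d = S.s (Equiv.swap x y d) := by
    intro d
    rw [Part.glue_s, Equiv.Perm.mul_apply]
  refine cpl_of h (by rw [Part.glue_R]; exact S.B_sub_R hy) ?_
  intro e he
  have hZ : ∀ m : ℕ, ∃ i ≤ j, (((S.glue x y hx hy).s ^ m) y) = (S.s ^ (i + 1)) x := by
    intro m
    induction m with
    | zero => exact ⟨j, le_rfl, h4.symm⟩
    | succ m ih =>
      obtain ⟨i, hi, h5⟩ := ih
      rw [pow_succ', Equiv.Perm.mul_apply, h5, hgs]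
      rcases Nat.lt_or_ge i j with h6 | h6
      · have h7 : (S.s ^ (i + 1)) x ∉ S.B := h3 i h6
        rw [Equiv.swap_apply_of_ne_of_ne (fun h8 => h7 (by rw [h8]; exact hx)) (fun h8 => h7 (by rw [h8]; exact hy))]
        refine ⟨i + 1, h6, ?_⟩
        rw [pow_succ' _ (i + 1), Equiv.Perm.mul_apply]
      · have h7 : i = j := le_antisymm hi h6
        rw [h7, h4, Equiv.swap_apply_right]
        exact ⟨0, Nat.zero_le _, by rw [zero_add, pow_one]⟩
  obtain ⟨m, -, hm⟩ := he.exists_pow_eq'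
  obtain ⟨i, hi, h5⟩ := hZ m
  rw [← hm, h5, Part.glue_B _ _ _ hxy]
  rintro ⟨h6, h7⟩
  rcases Nat.lt_or_ge i j with h8 | h8
  · exact h3 i h8 h6
  · have h9 : i = j := le_antisymm hi h8
    apply h7
    rw [h9, h4]
    exact Or.inr rfl

omit [Finite D] in
private theorem wg_swap {S : Part D} {x y : D} (hx : x ∈ S.B) (hy : y ∈ S.B) :
    S.glue y x hy hx = S.glue x y hx hy := by
  refine Part.ext' ?_ rfl
  show S.a * Equiv.swap y x = S.a * Equiv.swap x y
  rw [Equiv.swap_comm]

theorem glue_cpl_v {S : Part D} {T : Tri D} {x y : D} (hx : x ∈ S.B) (hy : y ∈ S.B) {u : List D}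
    (hw : S.hw x = x :: (u ++ [y])) (h : (S.glue x y hx hy).Le T) : (S.glue x y hx hy).Cpl T (T.tl x) := by
  have h1 : S.hw y = y :: x :: u := S.hw_rot hx (u := x :: u) (v := []) hw
  have h2 := glue_cpl_u (T := T) hy hx h1
  rw [wg_swap hx hy] at h2
  exact h2 h

end SYS
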